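import Mathlib
import Pool.Agent.Y703.CX.Rank
import Pool.Agent.Q283.NK.G1

/-!
# Independence of all cubic twists by products of divisors of almost every integer

The curve `C_n : y² = x³ - 432 n²` is the cubic twist `x³ + y³ = n`; it is `3`-isogenous to
`E_n : y² + n y = x³` and has the same rank. A number `N` is a BASE if it is cube-free, prime to `3`, not
`±1` modulo `9`, with exactly one prime divisor `2` modulo `3`. For a positive integer `D` let `D'` be the
product of its prime divisors `1` modulo `3`. The products `N d_1 ^ e_1 ⋯ d_n ^ e_n` of a base and of powers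
(`e_i = 0, 1, 2`) of divisors `d_i` of `D'²` give the twists inside `D` (we write their cube-free parts; the
curve `x³ + y³ = n` is the same; they are again bases if they are not `±1` modulo `9`).

* For every base `n` the Selmer group of `√-3` of `E_n` over `ℚ(√-3)` has order `3 ^ (2 r + 1)` for some
  `r = r(n)`, the rank of `E_n(ℚ)` is at most `2 r`, and `r = 0` if and only if `E_n(ℚ)` is finite and
  `Ш(E_n/ℚ)[3^∞] = 0` (`n` is GOOD); for good `n` the rank form of the conjecture of Birch and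
  Swinnerton-Dyer holds for `C_n`: the `L`-function is entire, its order at `s = 1` and the rank are `0`.
  If `n n'` is a cube, then `r(n) = r(n')`.
* THERE IS ONE SET `S` of positive integers, of NATURAL DENSITY `1`, and also of relative density `1` in the
  thin set of the split numbers (`D = D'`; at least `k X / sqrt (log X)` of them up to `X`), such that the
  following holds for all numbers `n` and for EVERY finite family of forms
  `F_j(d) = N_j d_1 ^ e_j1 ⋯ d_n ^ e_jn` (`j = 1, ..., M`; `N_j` a base, `e_j ≠ 0`) without the trivial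
  relations `F_j = F_l` and `F_j F_l = cube` (`j ≠ l`), for every `ε > 0`, all large `D` in `S` and all
  residue classes `a = (a_1, ..., a_n)` modulo `9` with no `F_j(a)` equal to `±1` modulo `9`: let
  `d = (d_1, ..., d_n)` run through the tuples of divisors `d_i ≡ a_i` modulo `9` of `D'²` (if there are
  any, they are at least the share `3 ^ (-n)` of all tuples; `a = (1, ..., 1)` always has some).
  (1) COMPLETE INDEPENDENCE: for every set `T` of vectors the share of the `d` for which
      `(r(F_1(d)), ..., r(F_M(d)))` is in `T` is within `ε` of the measure of `T` for the `M`-th power of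
      the law `law r = c 3^r / ((3 - 1)² (9 - 1)² ⋯ (3^r - 1)²)`, `c = ∏_{i ≥ 1} (1 - 3^{-i})`,
      `0.56 < c < 0.5602`, uniformly in `T`. So the trivial relations are the only ones.
  (2) For every subset `A` of the family the share of the `d` for which exactly the `F_j(d)` with `j` in `A`
      are good is within `ε` of `c ^ |A| (1 - c) ^ (M - |A|)`.
  (3) The rank form holds, with order and rank `0`, for all the `F_j(d)` at once for a share
      `≥ c ^ M - ε` of the `d`, and for one of them at least for a share `≥ 1 - (1 - c) ^ M - ε`.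
  (4) LAW OF LARGE NUMBERS: for `M > 0` and `η > 0` the share of the `d` for which the frequency of the good
      `F_j(d)` differs from `c` by `η` or more is at most `2 exp (- η² M / 4) + ε`.
  (5) For every `j` the mean of `3 ^ r(F_j(d))` is within `ε` of `2`, and the mean of the ranks of the
      `E_{F_j(d)}(ℚ)` is less than `0.92`.

For example, all the `3 ^ n - 1` forms `N d_1 ^ e_1 ⋯ d_n ^ e_n`, `e ≠ 0`, for all bases `N` of a finite list
are independent: the cubic twists by the divisors of almost every single integer behave like a random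
field on the vector space of the divisors modulo cubes, with complete independence for every linear pattern.
-/

set_option autoImplicit false

open scoped Classical

namespace Pool.Agent.Results.MP_696deb_nt.IndependenceOverDivisors

open Filter WeierstrassCurve
open Pool.Agent.TH841.SH.D (Coch)
open Pool.Agent.TH841.NF.D (IsShaCoc)

/-- the conclusion of the frozen statement for `y² = x³ + a x + b`, together with the fact that the
order of vanishing and the rank are both `0` -/
def BSDRankZero (a b : ℤ) : Prop :=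
  4 * a ^ 3 + 27 * b ^ 2 ≠ 0 ∧
    ∃ F : ℂ → ℂ, Differentiable ℂ F ∧
      (∀ s : ℂ, (3 : ℝ) / 2 < s.re →
        HasProd
          (fun p : ℕ => open Classical in
            if p.Prime ∧ ¬ ((p : ℤ) ∣ 2 * (-4 * a ^ 3 - 27 * b ^ 2)) then
              (1 - ((p : ℂ) - (Nat.card {q : ZMod p × ZMod p //
                  q.2 ^ 2 = q.1 ^ 3 + (a : ZMod p) * q.1 + (b : ZMod p)} : ℂ))
                  * (p : ℂ) ^ (-s) + (p : ℂ) ^ (1 - 2 * s))⁻¹
            else 1)
          (F s)) ∧
      analyticOrderAt F 1 =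
        ((Module.finrank ℤ
          (WeierstrassCurve.Affine.Point
            (WeierstrassCurve.toAffine
              ({ a₁ := 0, a₂ := 0, a₃ := 0, a₄ := (a : ℚ), a₆ := (b : ℚ) } :
                WeierstrassCurve ℚ))) : ℕ) : ℕ∞) ∧
      Module.finrank ℤ
        (WeierstrassCurve.Affine.Point
          (WeierstrassCurve.toAffine
            ({ a₁ := 0, a₂ := 0, a₃ := 0, a₄ := (a : ℚ), a₆ := (b : ℚ) } :
              WeierstrassCurve ℚ))) = 0

/-- The base numbers: cube-free, prime to `3`, not `±1` modulo `9`, exactly one prime divisor is `2`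
modulo `3`. -/
def IsBase (N : ℕ) : Prop :=
  N ≠ 0 ∧ ¬ 3 ∣ N ∧ (∀ p : ℕ, p.Prime → ¬ p ^ 3 ∣ N) ∧ N % 9 ≠ 1 ∧ N % 9 ≠ 8 ∧
    ∃ q : ℕ, q.Prime ∧ q % 3 = 2 ∧ q ∣ N ∧ ∀ p : ℕ, p.Prime → p ∣ N → p ≠ q → p % 3 = 1

/-- The cube-free part of `n`. -/
def cubeFree (n : ℕ) : ℕ := ∏ p ∈ n.primeFactors, p ^ (n.factorization p % 3)

/-- The split numbers: squarefree, all prime divisors are `1` modulo `3`. -/
def Split (D : ℕ) : Prop := Squarefree D ∧ ∀ p : ℕ, p.Prime → p ∣ D → p % 3 = 1

/-- The product of the prime divisors `1` modulo `3` of `D`. -/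
def splitPart (D : ℕ) : ℕ := ∏ p ∈ D.primeFactors.filter (fun p => p % 3 = 1), p

/-- The divisors in the residue class `a` modulo `9` of the square of the split part of `D`. -/
def divs (a D : ℕ) : Finset ℕ := (splitPart D ^ 2).divisors.filter fun d => d % 9 = a

/-- The tuples of divisors in the residue classes `a`. -/
def tuples {n : ℕ} (a : Fin n → ℕ) (D : ℕ) : Finset (Fin n → ℕ) :=
  Fintype.piFinset fun i => divs (a i) D

/-- The form `d_1 ^ e_1 ⋯ d_n ^ e_n` with exponents `0, 1, 2`. -/
def form {n : ℕ} (e : Fin n → ZMod 3) (d : Fin n → ℕ) : ℕ := ∏ i, d i ^ (e i).val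

/-- No trivial relations: no `e_j` is zero, and for `j ≠ l` neither are the forms equal nor is their
product a cube identically. -/
def Unrelated {M n : ℕ} (N : Fin M → ℕ) (e : Fin M → Fin n → ZMod 3) : Prop :=
  (∀ j, e j ≠ 0) ∧ ∀ j l, j ≠ l →
    ¬ (e l = e j ∧ N l = N j) ∧ ¬ (e l = -e j ∧ ∃ b : ℕ, N j * N l = b ^ 3)

/-- The curve `E_n : y² + n y = x³`. -/
def curve {F : Type} [Field F] (n : F) : WeierstrassCurve F := ⟨0, 0, n, 0, 0⟩

/-- The Selmer group of the endomorphism `√-3` of `E_n` over the field `K` of third roots of unity: the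
continuous cocycles with values in its kernel `{0, (0, 0), (0, -n)}` (the Galois group acts trivially on
it, so these cocycles are the classes) that are coboundaries in `E_n` at all the places of `K`. -/
def Sel (K : Type) [Field K] [NumberField K] (n : ℕ) : Set (Coch (curve (n : K))) :=
  {f | IsShaCoc (curve (n : K)) f ∧ ∀ σ, f σ = 0 ∨ ∃ y h, f σ = Affine.Point.some 0 y h}

/-- the rank of `E_n(ℚ)` -/
noncomputable def rank (n : ℕ) : ℕ := Module.finrank ℤ (curve (n : ℚ)).toAffine.Point

/-- `E_n(ℚ)` is finite and `Ш(E_n/ℚ)[3^∞] = 0` -/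
def Good (n : ℕ) : Prop :=
  Finite (curve (n : ℚ)).toAffine.Point ∧
    ∀ (k : ℕ) (x : Pool.Agent.TH841.SH.D.Sha (curve (n : ℚ))), 3 ^ k • x = 0 → x = 0

/-- The vector of the values of the forms: the cube-free parts of the `N_j d_1 ^ e_j1 ⋯ d_n ^ e_jn`. -/
def values {M n : ℕ} (N : Fin M → ℕ) (e : Fin M → Fin n → ZMod 3) (d : Fin n → ℕ) : Fin M → ℕ :=
  fun j => cubeFree (N j * form (e j) d)

/-- The share of the tuples of divisors in the residue classes `a` for which the vector of the values has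
the property `P`. -/
noncomputable def share {M n : ℕ} (N : Fin M → ℕ) (e : Fin M → Fin n → ZMod 3) (a : Fin n → ℕ)
    (D : ℕ) (P : (Fin M → ℕ) → Prop) : ℝ :=
  (((tuples a D).filter fun d => P (values N e d)).card : ℝ) / (tuples a D).card

/-- The mean of `f` at the values of one form. -/
noncomputable def mean {n : ℕ} (N : ℕ) (e : Fin n → ZMod 3) (a : Fin n → ℕ) (D : ℕ) (f : ℕ → ℝ) : ℝ :=
  (∑ d ∈ tuples a D, f (cubeFree (N * form e d))) / (tuples a D).card

/-- the number of the `j` for which `v j` is good -/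
noncomputable def number {M : ℕ} (v : Fin M → ℕ) : ℕ := (Finset.univ.filter fun j => Good (v j)).card

/-- the number of the `D ≤ X` with the property `P` -/
noncomputable def count (P : ℕ → Prop) (X : ℕ) : ℕ := ((Finset.Icc 1 X).filter P).card

/-- `c = ∏_{i ≥ 1} (1 - 3^{-i})` -/
noncomputable def c : ℝ := ∏' i : ℕ, (1 - (1 / 3 : ℝ) ^ (i + 1))

/-- the law of the coranks of large square matrices over the field with three elements -/
noncomputable def law (r : ℕ) : ℝ := c * 3 ^ r / ∏ i ∈ Finset.range r, ((3 : ℝ) ^ (i + 1) - 1) ^ 2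

section proof

open Q283.Q3B Q283.Q3N Q283.ND Q283.NJ Q283.NK
open Q283.Q3 (cq cq_eq cq_ge sum_cq cq_zero)

theorem base_iff (N : ℕ) : IsBase N ↔ Pool.Agent.Y703.CT.Cls N := by
  unfold IsBase Pool.Agent.Y703.CT.Cls Pool.Agent.Y703.CT.Base
  tauto

theorem law_eq (r : ℕ) : cq r = law r := cq_eq r

theorem sel_card (K : Type) [Field K] [NumberField K]
    (j : Pool.Agent.Y692.QS.Ei ≃+* NumberField.RingOfIntegers K) {n : ℕ}
    (hC : Pool.Agent.Y703.CT.Cls n) : (Sel K n).ncard = 3 ^ (2 * rr n + 1) := (sel_N K j hC).1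

theorem good_iff (n : ℕ) : Good n ↔ Pool.Agent.Y703.CT.Triv3 n := by
  have h : Pool.Agent.Y703.CT.EQ (Pool.Agent.Y703.CT.WD n) = curve (n : ℚ) := by
    unfold Pool.Agent.Y703.CT.EQ Pool.Agent.Y703.CT.WD curve WeierstrassCurve.map
    simp
  unfold Good Pool.Agent.Y703.CT.Triv3
  rw [h]

theorem bsd {n : ℕ} (hC : Pool.Agent.Y703.CT.Cls n) (hT : Pool.Agent.Y703.CT.Triv3 n) :
    BSDRankZero 0 (-432 * (n : ℤ) ^ 2) := by
  have hD0 : (n : ℤ) ≠ 0 := by exact_mod_cast hC.1.1
  obtain ⟨F, h1, h2, h3, h4⟩ := Pool.Agent.Y703.CX.rank_form hC ((triv_iff hC).1 hT)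
  refine ⟨?_, F, h1, h2, ?_, h4⟩
  · have e : (4 * 0 ^ 3 + 27 * (-432 * (n : ℤ) ^ 2) ^ 2 : ℤ) = 27 * (432 * (n : ℤ) ^ 2) ^ 2 := by ring
    rw [e]
    positivity
  · rw [h3, h4]
    rfl

theorem pw_inj {a b : ℕ} (h : 3 ^ (2 * a + 1) = 3 ^ (2 * b + 1)) : a = b := by
  have := Nat.pow_right_injective (le_refl 2 |>.trans (by norm_num : 2 ≤ 3)) h
  omega

theorem mem_tuples {n : ℕ} {a : Fin n → ℕ} {D : ℕ} {d : Fin n → ℕ} :
    d ∈ tuples a D ↔ ∀ i, d i ∈ divs (a i) D := by
  unfold tuples
  rw [Fintype.mem_piFinset]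

theorem tuples_eq {n : ℕ} (a : Fin n → ℕ) (D : ℕ) : tuples a D = DkK a (sp D) := by
  ext d
  rw [mem_tuples, mem_DkK]
  exact Iff.rfl

/-- the cube-free part of a product of divisors -/
theorem cls_form {n : ℕ} {N D : ℕ} {e : Fin n → ZMod 3} {d : Fin n → ℕ}
    (hN : Pool.Agent.Y703.CT.Cls N) (hd : ∀ i, d i ∣ splitPart D ^ 2) (h1 : N * form e d % 9 ≠ 1)
    (h8 : N * form e d % 9 ≠ 8) : Pool.Agent.Y703.CT.Cls (cubeFree (N * form e d)) ∧
      N * form e d ≠ 0 := by
  have hS : ∀ p ∈ (sp D).primeFactors, p.Prime := fun p hp => Nat.prime_of_mem_primeFactors hp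
  have h0 : sp D ≠ 0 := (sp_sqf D).ne_zero
  have hd0 : ∀ i, d i ≠ 0 := fun i h => pow_ne_zero 2 h0 (zero_dvd_iff.1 (h ▸ hd i))
  have hf0 : form e d ≠ 0 := fo_ne hd0
  have hp : ∀ p : ℕ, p.Prime → p ∣ form e d → p % 3 = 1 := by
    intro p hp hpd
    obtain ⟨i, -, hi⟩ := (hp.prime.dvd_finsetProd_iff _).1 hpd
    exact (sp_ac D).2 p hp (hp.dvd_of_dvd_pow ((hp.dvd_of_dvd_pow hi).trans (hd i)))
  obtain ⟨M, c, g1, g2, g3, -⟩ := Q283.MC.cf_bs (N := N) (R := form e d) ⟨hN.1, hN.2.2.2⟩ hf0 hp
  have hn : N * form e d ≠ 0 := mul_ne_zero hN.1.1 hf0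
  have h2 : M = cf (N * form e d) := cf_unique (g1.symm.trans (cf_mul hn)) (by rw [← g1]; exact hn)
    g2.1.2.2 (cf_free _)
  refine ⟨?_, hn⟩
  show Pool.Agent.Y703.CT.Cls (cf (N * form e d))
  rw [← h2]
  exact ⟨g2.1, by rw [g3]; exact h1, by rw [g3]; exact h8, g2.2⟩

theorem form_mod {n : ℕ} {D : ℕ} {e : Fin n → ZMod 3} {a d : Fin n → ℕ} (hd : d ∈ tuples a D)
    (N : ℕ) : N * form e d % 9 = N * form e a % 9 := by
  have h1 : ∀ i, d i % 9 = a i := fun i => (Finset.mem_filter.1 (mem_tuples.1 hd i)).2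
  have h2 : Nat.ModEq 9 (form e d) (form e a) := by
    unfold form
    rw [← ZMod.natCast_eq_natCast_iff]
    push_cast
    refine Finset.prod_congr rfl fun i _ => ?_
    rw [← h1 i, ZMod.natCast_mod]
  exact (Nat.ModEq.refl N).mul h2

theorem tuple_dvd {n : ℕ} {D : ℕ} {a d : Fin n → ℕ} (hd : d ∈ tuples a D) (i : Fin n) :
    d i ∣ splitPart D ^ 2 :=
  ((mem_Dk (k := a i) (sp_sqf D)).1 (mem_tuples.1 hd i)).1

/-- the cube-free part of a product of divisors in the classes -/
theorem cls_of {n : ℕ} {N D : ℕ} {e : Fin n → ZMod 3} {a d : Fin n → ℕ}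
    (hN : Pool.Agent.Y703.CT.Cls N) (h1 : N * form e a % 9 ≠ 1)
    (h8 : N * form e a % 9 ≠ 8) (hd : d ∈ tuples a D) :
    Pool.Agent.Y703.CT.Cls (cubeFree (N * form e d)) :=
  (cls_form hN (tuple_dvd hd) (by rw [form_mod hd]; exact h1) (by rw [form_mod hd]; exact h8)).1

/-- the shares -/
theorem share_eq {M n : ℕ} {N : Fin M → ℕ} {e : Fin M → Fin n → ZMod 3} {a : Fin n → ℕ} {D : ℕ}
    {P Q : (Fin M → ℕ) → Prop}
    (h : ∀ d ∈ tuples a D, P (values N e d) ↔ Q (fun j => rr (values N e d j))) :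
    share N e a D P =
      (((DkK a (sp D)).filter fun d => (fun j => rr (cf (N j * fo (e j) d))) ∈ {r | Q r}).card : ℝ) /
        (DkK a (sp D)).card := by
  unfold share
  rw [tuples_eq] at h ⊢
  congr 2
  exact Pool.Agent.XLK.fcc fun d hd => h d hd

theorem share_mono {M n : ℕ} {N : Fin M → ℕ} {e : Fin M → Fin n → ZMod 3} {a : Fin n → ℕ} {D : ℕ}
    {P Q : (Fin M → ℕ) → Prop} (h : ∀ d ∈ tuples a D, P (values N e d) → Q (values N e d)) :
    share N e a D P ≤ share N e a D Q := by
  unfold share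
  refine div_le_div_of_nonneg_right ?_ (Nat.cast_nonneg _)
  rw [Nat.cast_le]
  refine Finset.card_le_card fun d hd => ?_
  rw [Finset.mem_filter] at hd ⊢
  exact ⟨hd.1, h d hd.1 hd.2⟩

theorem share_not {M n : ℕ} {N : Fin M → ℕ} {e : Fin M → Fin n → ZMod 3} {a : Fin n → ℕ} {D : ℕ}
    (hne : (tuples a D).Nonempty)
    (P : (Fin M → ℕ) → Prop) : share N e a D P = 1 - share N e a D fun n => ¬ P n := by
  unfold share
  have hpos : (0 : ℝ) < (tuples a D).card := by exact_mod_cast Finset.card_pos.2 hne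
  have h := Finset.card_filter_add_card_filter_not (s := tuples a D)
    (fun d => P (values N e d))
  have h' : (((tuples a D).filter fun d => P (values N e d)).card : ℝ) +
      (((tuples a D).filter fun d => ¬ P (values N e d)).card : ℝ) =
      (tuples a D).card := by exact_mod_cast h
  rw [eq_sub_iff_add_eq, ← add_div]
  refine (congrArg (fun x : ℝ => x / ((tuples a D).card : ℝ)) ?_).trans (div_self hpos.ne')
  refine Eq.trans ?_ h'
  congr 2
  exact Pool.Agent.XLK.fcc fun _ _ => Iff.rfl

end proof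

open Q283.Q3B Q283.Q3N Q283.ND Q283.NJ Q283.NK in
open Q283.Q3 (cq cq_eq cq_ge sum_cq cq_zero) in
theorem result (K : Type) [Field K] [NumberField K] [IsCyclotomicExtension {3} ℚ K] :
    (∀ n : ℕ, IsBase n → ∃ r : ℕ, (Sel K n).ncard = 3 ^ (2 * r + 1) ∧ rank n ≤ 2 * r ∧
      (r = 0 ↔ Good n) ∧ (Good n → BSDRankZero 0 (-432 * (n : ℤ) ^ 2))) ∧
    (∀ n n' b : ℕ, IsBase n → IsBase n' → n * n' = b ^ 3 → (Sel K n).ncard = (Sel K n').ncard) ∧
    (∀ (n N D : ℕ) (e : Fin n → ZMod 3) (d : Fin n → ℕ), IsBase N → (∀ i, d i ∣ splitPart D ^ 2) →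
      N * form e d % 9 ≠ 1 → N * form e d % 9 ≠ 8 →
      IsBase (cubeFree (N * form e d)) ∧ ∃ b : ℕ, N * form e d = cubeFree (N * form e d) * b ^ 3) ∧
    (∀ (n : ℕ) (a : Fin n → ℕ) (D : ℕ), (tuples (fun _ : Fin n => 1) D).Nonempty ∧
      ((tuples a D).Nonempty →
        3 ^ (n * (splitPart D).primeFactors.card) ≤ 3 ^ n * (tuples a D).card)) ∧
    (∀ D : ℕ, Split (splitPart D) ∧ (Split D → splitPart D = D)) ∧
    (∃ S : ℕ → Prop, Tendsto (fun X : ℕ => (count S X : ℝ) / X) atTop (nhds 1) ∧
      Tendsto (fun X : ℕ => (count (fun D => Split D ∧ S D) X : ℝ) / count Split X) atTop (nhds 1) ∧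
      ∀ (M n : ℕ) (N : Fin M → ℕ) (e : Fin M → Fin n → ZMod 3), (∀ j, IsBase (N j)) →
      Unrelated N e → ∀ ε : ℝ, 0 < ε → ∃ D₀ : ℕ, ∀ D : ℕ, D₀ ≤ D → S D →
        ∀ a : Fin n → ℕ, (∀ j, N j * form (e j) a % 9 ≠ 1 ∧ N j * form (e j) a % 9 ≠ 8) →
          (tuples a D).Nonempty →
          (∀ T : Set (Fin M → ℕ),
            |share N e a D (fun v => ∃ r ∈ T, ∀ j, (Sel K (v j)).ncard = 3 ^ (2 * r j + 1)) -
              ∑' r : T, ∏ j, law (r.1 j)| ≤ ε) ∧
          (∀ A : Finset (Fin M), |share N e a D (fun v => ∀ j, (Good (v j) ↔ j ∈ A)) -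
            c ^ A.card * (1 - c) ^ (M - A.card)| ≤ ε) ∧
          c ^ M - ε ≤ share N e a D (fun v => ∀ j, BSDRankZero 0 (-432 * (v j : ℤ) ^ 2)) ∧
          1 - (1 - c) ^ M - ε ≤
            share N e a D (fun v => ∃ j, BSDRankZero 0 (-432 * (v j : ℤ) ^ 2)) ∧
          (0 < M → ∀ η : ℝ, 0 < η → share N e a D (fun v => η ≤ |(number v : ℝ) / M - c|) ≤
            2 * Real.exp (-(η ^ 2 * M / 4)) + ε) ∧
          ∀ j, |mean (N j) (e j) a D (fun n => Real.sqrt ((Sel K n).ncard / 3)) - 2| ≤ ε ∧
            mean (N j) (e j) a D (fun n => (rank n : ℝ)) < 0.92) ∧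
    (∃ (k : ℝ) (X₀ : ℕ), 0 < k ∧ ∀ X : ℕ, X₀ ≤ X →
      k * (X / Real.sqrt (Real.log X)) ≤ (count Split X : ℝ)) ∧
    HasSum law 1 ∧ 0.56 < c ∧ c < 0.5602 := by
  obtain ⟨⟨j, -⟩, -⟩ := Pool.Agent.Y455.CTK.jex K
  have hlaw : cq = law := funext law_eq
  have hc3 : c = Pool.Agent.Y703.CX.c3 := rfl
  have hc1 : 0.56 < c ∧ c < 0.5602 := by
    rw [hc3]
    exact ⟨Q283.ND.c3_lt.2, Q283.ND.c3_lt.1⟩
  refine ⟨fun n hn => ?_, fun n n' b hn hn' h => ?_, fun n N D e d hN hd h1 h8 => ⟨?_, ?_⟩,
    fun n a D => ⟨?_, fun h => ?_⟩, fun D => ⟨sp_ac D, fun h => sp_split h⟩, ?_, ?_, ?_, hc1⟩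
  · have hC := (base_iff n).1 hn
    obtain ⟨h1, h2, h3⟩ := sel_N K j hC
    exact ⟨_, h1, h2, h3.trans (good_iff _).symm, fun h => bsd hC ((good_iff n).1 h)⟩
  · have hC := (base_iff n).1 hn
    have hC' := (base_iff n').1 hn'
    rw [sel_card K j hC, sel_card K j hC', rr_inv hC hC' h]
  · exact (base_iff _).2 (cls_form ((base_iff N).1 hN) hd h1 h8).1
  · exact ⟨_, cf_mul (cls_form ((base_iff N).1 hN) hd h1 h8).2⟩
  · obtain ⟨x, hx⟩ := one_mem (sp_ac D)
    exact ⟨fun _ => x, mem_tuples.2 fun _ => hx⟩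
  · rw [tuples_eq] at h ⊢
    have h1 := DkK_card (sp_ac D) h
    rw [Fintype.card_fin] at h1
    exact h1
  · obtain ⟨S, hS, hS', hJ, hL⟩ := mainKC
    refine ⟨S, ?_, Q155.NL.tendsto_of_alm (C := Dc) ⟨1, le_rfl, squarefree_one, fun p hp hd =>
      absurd (Nat.dvd_one.1 hd) hp.one_lt.ne'⟩ hS', fun M n N e hN hinj ε hε => ?_⟩
    · have h1 := Q155.NL.tendsto_of_alm (C := fun _ => True) ⟨1, le_rfl, trivial⟩ hS
      refine h1.congr fun X => ?_
      have h2 : Q155.NL.cnt (fun _ => True) X = X := by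
        have h0 : Q155.NL.cs (fun _ => True) X = Finset.Icc 1 X := by
          ext D
          rw [Q155.NL.mem_cs, Finset.mem_Icc]
          exact ⟨fun h => h.1, fun h => ⟨h, trivial⟩⟩
        unfold Q155.NL.cnt
        rw [h0, Nat.card_Icc]
        omega
      rw [h2]
      congr 2
      unfold Q155.NL.cnt Q155.NL.cs count
      congr 1
      ext D
      simp
    · have hC : ∀ j, Pool.Agent.Y703.CT.Cls (N j) := fun j => (base_iff (N j)).1 (hN j)
      have hI : Ind N e := ind_of hC hinj.1 hinj.2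
      obtain ⟨e₁, he₁⟩ : ∃ e₁ : ℝ, e₁ = min (ε / 2 ^ M) ((0.92 - 2 * mu) / 4) := ⟨_, rfl⟩
      have hmu := mu_lt
      have he0 : 0 < e₁ := by
        rw [he₁]
        exact lt_min (by positivity) (by linarith)
      have hee : 2 ^ M * e₁ ≤ ε := by
        have h1 : e₁ ≤ ε / 2 ^ M := by rw [he₁]; exact min_le_left _ _
        rw [le_div_iff₀ (by positivity)] at h1
        linarith
      have hea : e₁ ≤ ε := (le_mul_of_one_le_left he0.le (one_le_pow₀ (by norm_num))).trans hee
      have hec : e₁ ≤ (0.92 - 2 * mu) / 4 := by rw [he₁]; exact min_le_right _ _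
      have hall : ∀ᶠ D in atTop, ∀ j, S D → PL (N j) e₁ (sp D) :=
        eventually_all.2 fun j => hL (N j) (hC j) e₁ he0
      obtain ⟨D₀, hD₀⟩ := eventually_atTop.1 ((hJ M n N e hC hI e₁ he0).and hall)
      refine ⟨D₀, fun D hD hSD a ha hne => ?_⟩
      obtain ⟨hJD, hLD⟩ := hD₀ D hD
      have hJa := hJD hSD a (fun j => (ha j).1) (fun j => (ha j).2)
      have hne' : (DkK a (sp D)).Nonempty := by rw [← tuples_eq]; exact hne
      have hpos : 0 < (DkK a (sp D)).card := Finset.card_pos.2 hne'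
      have hpos' : (0 : ℝ) < (DkK a (sp D)).card := by exact_mod_cast hpos
      have hcl : ∀ d ∈ tuples a D, ∀ j, Pool.Agent.Y703.CT.Cls (values N e d j) :=
        fun d hd j => cls_of (hC j) (ha j).1 (ha j).2 hd
      have hrr : ∀ d ∈ tuples a D, ∀ i, (rr (values N e d i) = 0 ↔ Good (values N e d i)) := by
        intro d hd i
        rw [good_iff]
        exact (sel_N K j (hcl d hd i)).2.2
      have hT : ∀ T : Set (Fin M → ℕ),
          |(((DkK a (sp D)).filter fun d => (fun j => rr (cf (N j * fo (e j) d))) ∈ T).card : ℝ) /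
            (DkK a (sp D)).card - ∑' r : T, ∏ j, law (r.1 j)| ≤ e₁ := by
        intro T
        have h2 := div_abs hpos' (hJa T)
        have h3 : msJ T = ∑' r : T, ∏ j, law (r.1 j) := by
          rw [← hlaw]
          rfl
        rw [h3] at h2
        exact h2
      have hA : ∀ A : Finset (Fin M), |share N e a D (fun v => ∀ j, (Good (v j) ↔ j ∈ A)) -
            c ^ A.card * (1 - c) ^ (M - A.card)| ≤ e₁ := by
        intro A
        rw [share_eq (Q := fun r => ∀ k, (r k = 0 ↔ k ∈ A)) fun d hd =>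
          forall_congr' fun i => by rw [hrr d hd i]]
        have h2 := hT {r | ∀ k, (r k = 0 ↔ k ∈ A)}
        have h3 : ∑' r : {r : Fin M → ℕ | ∀ k, (r k = 0 ↔ k ∈ A)}, ∏ j, law (r.1 j) =
            c ^ A.card * (1 - c) ^ (M - A.card) := by
          have h4 := Q283.Q3A.meas_A A
          rw [cq_zero, ← hc3, hlaw] at h4
          exact h4
        rw [h3] at h2
        exact h2
      have hpat : ∀ J : ℕ → Prop, |share N e a D (fun v => J (number v)) -
          ∑ A : Finset (Fin M), (if J A.card then wt c A else 0)| ≤ ε := by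
        intro J
        have hA' : ∀ A : Finset (Fin M), |(((tuples a D).filter fun d =>
            ∀ k, (Good (values N e d k) ↔ k ∈ A)).card : ℝ) / (tuples a D).card - wt c A| ≤
              e₁ := by
          intro A
          have h2 := hA A
          unfold share at h2
          have h3 : ((tuples a D).filter fun d => ∀ k, (Good (values N e d k) ↔ k ∈ A)).card =
              ((tuples a D).filter fun d => (fun v : Fin M → ℕ => ∀ j, (Good (v j) ↔ j ∈ A))
                (values N e d)).card :=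
            Pool.Agent.XLK.fcc fun d _ => Iff.rfl
          rw [h3]
          unfold wt
          convert h2
        have h2 := pat_fin (tuples a D) M (fun j d => Good (values N e d j)) (p := c) hA' J
        have h3 : share N e a D (fun v => J (number v)) = (((tuples a D).filter fun d =>
            J (Finset.univ.filter fun k => Good (values N e d k)).card).card : ℝ) /
              (tuples a D).card := by
          unfold share number
          congr 2
        rw [h3]
        exact h2.trans hee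
      refine ⟨fun T => ?_, fun A => (hA A).trans hea, ?_, ?_, fun hM η hη => ?_,
        fun i => ⟨?_, ?_⟩⟩
      · rw [share_eq (Q := fun r => r ∈ T) fun d hd => ?_]
        · exact (hT T).trans hea
        · constructor
          · rintro ⟨r, hr, h3⟩
            have h4 : (fun i => rr (values N e d i)) = r := by
              funext i
              have h5 := h3 i
              beta_reduce at h5
              rw [sel_card K j (hcl d hd i)] at h5
              exact pw_inj h5
            rw [h4]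
            exact hr
          · intro h3
            exact ⟨_, h3, fun i => sel_card K j (hcl d hd i)⟩
      · have h2 := (abs_le.1 (hA Finset.univ)).1
        rw [Finset.card_univ, Fintype.card_fin, Nat.sub_self, pow_zero, mul_one] at h2
        have h3 : share N e a D (fun v => ∀ j, (Good (v j) ↔ j ∈ (Finset.univ : Finset (Fin M)))) ≤
            share N e a D (fun v => ∀ j, BSDRankZero 0 (-432 * (v j : ℤ) ^ 2)) :=
          share_mono fun d hd h i => bsd (hcl d hd i) ((good_iff _).1 ((h i).2 (Finset.mem_univ i)))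
        linarith
      · have h2 := (abs_le.1 (hA ∅)).2
        rw [Finset.card_empty, Nat.sub_zero, pow_zero, one_mul] at h2
        have h3 : share N e a D (fun v => ∃ j, Good (v j)) ≤
            share N e a D (fun v => ∃ j, BSDRankZero 0 (-432 * (v j : ℤ) ^ 2)) :=
          share_mono fun d hd ⟨i, h⟩ => ⟨i, bsd (hcl d hd i) ((good_iff _).1 h)⟩
        have h4 : share N e a D (fun v => ¬ ∃ j, Good (v j)) ≤
            share N e a D (fun v => ∀ j, (Good (v j) ↔ j ∈ (∅ : Finset (Fin M)))) :=
          share_mono fun d _ h i => by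
            refine ⟨fun h' => absurd ⟨i, h'⟩ h, fun h' => absurd h' (Finset.notMem_empty i)⟩
        rw [share_not hne] at h3
        linarith
      · have h2 := (abs_le.1 (hpat fun m => η ≤ |(m : ℝ) / M - c|)).2
        have h3 := wt_tail (p := c) (by linarith [hc1.1]) (by linarith [hc1.2]) hM hη
        linarith
      · have hk : PL (N i) e₁ (sp D) := hLD i hSD
        have hLw := hk _ (by rw [Nat.mul_mod_mod]; exact (ha i).1)
          (by rw [Nat.mul_mod_mod]; exact (ha i).2)
        have hne1 := Dk_fo_ne (sp_ac D) (hinj.1 i) hne'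
        have hpos1 : (0 : ℝ) < (Dk (fo (e i) a % 9) (sp D)).card := by
          exact_mod_cast Finset.card_pos.2 hne1
        unfold mean
        rw [tuples_eq]
        have h2 : ∑ d ∈ DkK a (sp D), Real.sqrt ((Sel K (cubeFree (N i * form (e i) d))).ncard / 3) =
            ∑ d ∈ DkK a (sp D), (3 : ℝ) ^ rr (cf (N i * fo (e i) d)) := by
          refine Finset.sum_congr rfl fun d hd => ?_
          have hd' : d ∈ tuples a D := by rw [tuples_eq]; exact hd
          have h6 : (Sel K (cubeFree (N i * form (e i) d))).ncard =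
              3 ^ (2 * rr (cubeFree (N i * form (e i) d)) + 1) := sel_card K j (hcl d hd' i)
          rw [h6]
          push_cast
          have h3 : (3 : ℝ) ^ (2 * rr (cubeFree (N i * form (e i) d)) + 1) / 3 =
              ((3 : ℝ) ^ rr (cubeFree (N i * form (e i) d))) ^ 2 := by
            rw [pow_succ, mul_div_assoc, div_self (by norm_num), mul_one, ← pow_mul, mul_comm]
          rw [h3, Real.sqrt_sq (by positivity)]
          rfl
        rw [h2, mean_fo (sp_ac D) (hC i).1.1 (hinj.1 i) hne' (fun x => (3 : ℝ) ^ rr x)]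
        exact (div_abs hpos1 hLw.mom).trans hea
      · have hk : PL (N i) e₁ (sp D) := hLD i hSD
        have hLw := hk _ (by rw [Nat.mul_mod_mod]; exact (ha i).1)
          (by rw [Nat.mul_mod_mod]; exact (ha i).2)
        have hne1 := Dk_fo_ne (sp_ac D) (hinj.1 i) hne'
        have h2 : mean (N i) (e i) a D (fun n => (rank n : ℝ)) =
            (∑ d ∈ Dk (fo (e i) a % 9) (sp D), (rank (cf (N i * d)) : ℝ)) /
              (Dk (fo (e i) a % 9) (sp D)).card := by
          unfold mean
          rw [tuples_eq]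
          exact mean_fo (sp_ac D) (hC i).1.1 (hinj.1 i) hne' (fun x => (rank x : ℝ))
        rw [h2]
        refine mean_rank hLw (Finset.card_pos.2 hne1) (R := fun d => rank (cf (N i * d)))
          (fun d hd => (sel_N K j (Q283.ND.cls_cf (hC i) (sp_ac D) ((mem_Dk (sp_sqf D)).1 hd).1
            ?_ ?_)).2.1) (by linarith)
        · rw [Nat.mul_mod, ((mem_Dk (sp_sqf D)).1 hd).2, ← Nat.mul_mod]
          exact (ha i).1
        · rw [Nat.mul_mod, ((mem_Dk (sp_sqf D)).1 hd).2, ← Nat.mul_mod]
          exact (ha i).2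
  · obtain ⟨k, X₀, hk, h⟩ := low_D
    refine ⟨k, X₀, hk, fun X hX => ?_⟩
    have h1 := h X hX
    rw [DS_eq] at h1
    refine le_trans (le_of_eq ?_) h1
    have h2 : (Real.log X) ^ (-(1 / 2) : ℝ) = (Real.sqrt (Real.log X))⁻¹ := by
      rw [Real.rpow_neg (Real.log_natCast_nonneg X), ← Real.sqrt_eq_rpow]
    rw [h2]
    ring
  · rw [← hlaw]
    exact sum_cq

end Pool.Agent.Results.MP_696deb_nt.IndependenceOverDivisors
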