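import Mathlib
import Pool.Agent.Y703.CX.Rank
import Pool.Agent.Q283.Q3.Lnq

/-!
# Almost every number `D` has cubic twists `x³ + y³ = D m_k` for which the rank form holds

Let `m_0, m_1, m_2, …` be ANY infinite sequence of different squarefree numbers, `1` modulo `9`, with all
prime divisors `1` modulo `3` (for example of primes `1` modulo `9`). Let `D` run through ALL squarefree
numbers prime to `3`, not `±1` modulo `9`, with exactly one prime divisor `2` modulo `3` (and any number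
of prime divisors `1` modulo `3`), ordered by size. The curve `C_N : y² = x³ - 432 N²` is the cubic twist
`x³ + y³ = N`; it is `3`-isogenous to `E_N : y² + N y = x³`. Call `N` GOOD if `E_N(ℚ)` is finite and
`Ш(E_N / ℚ)[3^∞] = 0`.

* If `D m_k` is good, then the rank form of the conjecture of Birch and Swinnerton-Dyer holds for
  `C_{D m_k}`: the `L`-function is entire, and its order of vanishing at `s = 1` and the rank are both `0`.
* EXACT LAW: for every `n` the number of the `k < n` for which `D m_k` is good has asymptotically the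
  binomial distribution with parameters `n` and `c = ∏_{i ≥ 1} (1 - 3^{-i}) = 0.5601…`: for every `j` the
  proportion of the `D` for which exactly `j` of the numbers `D m_0, …, D m_{n-1}` are good tends to
  `(n choose j) c^j (1 - c)^(n - j)`.
* LAW OF LARGE NUMBERS, exponential rate: for every `n` and `ε > 0` the set of the `D` for which the
  frequency of the good numbers among `D m_0, …, D m_{n-1}` differs from `c` by at least `ε` has a relative
  density, which is at most `2 exp (- ε² n / 4)`.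
* For every `N`, for `100 %` of the `D` the rank form holds with order and rank `0` for at least `N` of the
  curves `C_{D m_0}, C_{D m_1}, C_{D m_2}, …`.

For a single `m_k` the proportion is `c`; that almost every `D` becomes good in every infinite sequence
of twists comes from the asymptotic independence of the `3`-parts of the curves `C_{D m_k}`.
-/

set_option autoImplicit false

open scoped Classical

namespace Pool.Agent.Results.MP_696deb_nt.LawOfLargeNumbersTwists

/-- the conclusion of the frozen statement for `y² = x³ + a x + b`, together with the fact that the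
order of vanishing and the rank are both `0` -/
def BSDRankZero (a b : ℤ) : Prop :=
  4 * a ^ 3 + 27 * b ^ 2 ≠ 0 ∧
    ∃ F : ℂ → ℂ, Differentiable ℂ F ∧
      (∀ s : ℂ, (3 : ℝ) / 2 < s.re →
        HasProd
          (fun p : ℕ => open Classical in
            if p.Prime ∧ ¬ ((p : ℤ) ∣ 2 * (-4 * a ^ 3 - 27 * b ^ 2)) then
              (1 - ((p : ℂ) - (Nat.card {q : ZMod p × ZMod p //
                  q.2 ^ 2 = q.1 ^ 3 + (a : ZMod p) * q.1 + (b : ZMod p)} : ℂ))
                  * (p : ℂ) ^ (-s) + (p : ℂ) ^ (1 - 2 * s))⁻¹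
            else 1)
          (F s)) ∧
      analyticOrderAt F 1 =
        ((Module.finrank ℤ
          (WeierstrassCurve.Affine.Point
            (WeierstrassCurve.toAffine
              ({ a₁ := 0, a₂ := 0, a₃ := 0, a₄ := (a : ℚ), a₆ := (b : ℚ) } :
                WeierstrassCurve ℚ))) : ℕ) : ℕ∞) ∧
      Module.finrank ℤ
        (WeierstrassCurve.Affine.Point
          (WeierstrassCurve.toAffine
            ({ a₁ := 0, a₂ := 0, a₃ := 0, a₄ := (a : ℚ), a₆ := (b : ℚ) } :
              WeierstrassCurve ℚ))) = 0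

/-- the class: `D` squarefree, prime to `3`, not `±1` modulo `9`, exactly one prime factor
congruent to `2` modulo `3` -/
def Class (D : ℕ) : Prop :=
  Squarefree D ∧ ¬ 3 ∣ D ∧ D % 9 ≠ 1 ∧ D % 9 ≠ 8 ∧
    ∃ q : ℕ, q.Prime ∧ q % 3 = 2 ∧ q ∣ D ∧ ∀ p : ℕ, p.Prime → p ∣ D → p ≠ q → p % 3 = 1

/-- the multipliers: different squarefree numbers, `1` modulo `9`, all prime divisors `1` modulo `3` -/
structure Multipliers (m : ℕ → ℕ) : Prop where
  inj : Function.Injective m
  sqf : ∀ k, Squarefree (m k)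
  nine : ∀ k, m k % 9 = 1
  one : ∀ (k p : ℕ), p.Prime → p ∣ m k → p % 3 = 1

/-- the curve `y² + N y = x³` over `ℚ` -/
def E (N : ℕ) : WeierstrassCurve ℚ := { a₁ := 0, a₂ := 0, a₃ := (N : ℚ), a₄ := 0, a₆ := 0 }

/-- `E_N(ℚ)` is finite and `Ш(E_N/ℚ)[3^∞] = 0` -/
def Good (N : ℕ) : Prop :=
  Finite (E N).toAffine.Point ∧
    ∀ (n : ℕ) (x : Pool.Agent.TH841.SH.D.Sha (E N)), 3 ^ n • x = 0 → x = 0

/-- the number of the `D ≤ X` in the class with the property `P` -/
noncomputable def count (P : ℕ → Prop) (X : ℕ) : ℕ :=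
  ((Finset.Icc 1 X).filter fun D => Class D ∧ P D).card

/-- the proportion of the `D ≤ X` in the class with the property `P` -/
noncomputable def proportion (P : ℕ → Prop) (X : ℕ) : ℝ :=
  (count P X : ℝ) / (count (fun _ => True) X : ℝ)

/-- the number of the `k < n` for which `D m_k` is good -/
noncomputable def goodCount (m : ℕ → ℕ) (n D : ℕ) : ℕ :=
  ((Finset.range n).filter fun k => Good (D * m k)).card

/-- `c = ∏_{i ≥ 1} (1 - 3^{-i})` -/
noncomputable def c : ℝ := ∏' i : ℕ, (1 - (1 / 3 : ℝ) ^ (i + 1))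

theorem E_eq (N : ℕ) : Pool.Agent.Y703.CT.EQ (Pool.Agent.Y703.CT.WD N) = E N := by
  unfold Pool.Agent.Y703.CT.EQ Pool.Agent.Y703.CT.WD E WeierstrassCurve.map
  simp

theorem good_iff (N : ℕ) : Good N ↔ Pool.Agent.Y703.CT.Triv3 N := by
  unfold Good Pool.Agent.Y703.CT.Triv3
  rw [E_eq]

theorem class_iff (D : ℕ) : Class D ↔ Squarefree D ∧ Pool.Agent.Y703.CT.Cls D := by
  unfold Class Pool.Agent.Y703.CT.Cls Pool.Agent.Y703.CT.Base
  constructor
  · rintro ⟨h1, h2, h3, h4, h5⟩
    refine ⟨h1, ⟨h1.ne_zero, h2, ?_⟩, h3, h4, h5⟩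
    intro p hp h
    have h6 : p * p ∣ D := (Dvd.intro p (by ring)).trans h
    exact hp.one_lt.ne' (Nat.isUnit_iff.1 (h1 p h6))
  · rintro ⟨h1, ⟨h6, h2, h7⟩, h3, h4, h5⟩
    exact ⟨h1, h2, h3, h4, h5⟩

theorem seq {m : ℕ → ℕ} (h : Multipliers m) : Q283.Q3N.Seq m where
  inj := h.inj
  adm k := ⟨h.nine k, fun p hp hd => ⟨h.one k p hp hd, fun h3 => by
    have h6 : p * p ∣ m k := (Dvd.intro p (by ring)).trans h3
    exact hp.one_lt.ne' (Nat.isUnit_iff.1 (h.sqf k p h6))⟩⟩
  sqf := h.sqf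

theorem crit {m : ℕ → ℕ} (h : Multipliers m) {D : ℕ} (hD : Class D) (k : ℕ) :
    Pool.Agent.Y703.CT.Cls (D * m k) ∧ (Pool.Agent.Y703.CT.NoSplit (D * m k) ↔ Good (D * m k)) := by
  have h1 := (class_iff D).1 hD
  have h2 := Q283.Q3N.cls_mul' h1.1 h1.2 ((seq h).adm k) (h.sqf k)
  exact ⟨h2, (Q283.Q3N.triv_iff h2).symm.trans (good_iff _).symm⟩

/-- translation of the proportions -/
theorem prop_eq (P Q : ℕ → Prop) (h : ∀ D, Class D → (Q D ↔ P D)) (X : ℕ) :
    (((Q283.Q3N.SN X).filter fun D => Q D).card : ℝ) / ((Q283.Q3N.SN X).card : ℝ) =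
      proportion P X := by
  unfold proportion count Q283.Q3N.SN
  rw [Finset.filter_filter]
  congr 2
  · refine Pool.Agent.XLK.fcc fun D _ => ?_
    rw [← class_iff]
    exact and_congr_right fun hD => h D hD
  · refine Pool.Agent.XLK.fcc fun D _ => ?_
    rw [← class_iff]
    exact ⟨fun h => ⟨h, trivial⟩, fun h => h.1⟩

theorem result (m : ℕ → ℕ) (hm : Multipliers m) :
    (∀ D : ℕ, Class D → ∀ k, Good (D * m k) → BSDRankZero 0 (-432 * ((D * m k : ℕ) : ℤ) ^ 2)) ∧
    (∀ n j : ℕ, Filter.Tendsto (proportion fun D => goodCount m n D = j) Filter.atTop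
      (nhds (n.choose j * c ^ j * (1 - c) ^ (n - j)))) ∧
    (∀ n : ℕ, 0 < n → ∀ ε : ℝ, 0 < ε → ∃ l : ℝ, l ≤ 2 * Real.exp (-(ε ^ 2 * n / 4)) ∧
      Filter.Tendsto (proportion fun D => ε ≤ |(goodCount m n D : ℝ) / n - c|) Filter.atTop
        (nhds l)) ∧
    (∀ N : ℕ, Filter.Tendsto (proportion fun D => ∃ F : Finset ℕ, F.card = N ∧ ∀ k ∈ F,
      Good (D * m k) ∧ BSDRankZero 0 (-432 * ((D * m k : ℕ) : ℤ) ^ 2)) Filter.atTop (nhds 1)) ∧
    (∃ (a : ℝ) (X₀ : ℕ), 0 < a ∧ ∀ X : ℕ, X₀ ≤ X →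
      a * (X / Real.sqrt (Real.log X)) ≤ (count (fun _ => True) X : ℝ)) ∧
    0.56 < c ∧ c < 0.5602 := by
  have hs := seq hm
  have hbsd : ∀ D : ℕ, Class D → ∀ k, Good (D * m k) →
      BSDRankZero 0 (-432 * ((D * m k : ℕ) : ℤ) ^ 2) := by
    intro D hC k hN
    obtain ⟨hC', hcr⟩ := crit hm hC k
    have hD0 : ((D * m k : ℕ) : ℤ) ≠ 0 := by exact_mod_cast hC'.1.1
    obtain ⟨F, h1, h2, h3, h4⟩ := Pool.Agent.Y703.CX.rank_form hC' (hcr.2 hN)
    refine ⟨?_, F, h1, h2, ?_, h4⟩
    · have e : (4 * 0 ^ 3 + 27 * (-432 * ((D * m k : ℕ) : ℤ) ^ 2) ^ 2 : ℤ) =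
          27 * (432 * ((D * m k : ℕ) : ℤ) ^ 2) ^ 2 := by ring
      rw [e]
      positivity
    · rw [h3, h4]
      rfl
  have hcnt : ∀ n D : ℕ, Class D →
      ((Finset.range n).filter fun k => Pool.Agent.Y703.CT.NoSplit (D * m k)).card =
        goodCount m n D := by
    intro n D hD
    unfold goodCount
    exact Pool.Agent.XLK.fcc fun k _ => (crit hm hD k).2
  refine ⟨hbsd, fun n j => ?_, fun n hn ε hε => ?_, fun N => ?_, ?_, ?_⟩
  · refine (Q283.Q3N.binom hs n j).congr fun X => ?_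
    have e := prop_eq (fun D => goodCount m n D = j)
      (fun D => ((Finset.range n).filter fun k => Pool.Agent.Y703.CT.NoSplit (D * m k)).card = j)
      (fun D hD => by rw [hcnt n D hD]) X
    refine Eq.trans ?_ e
    congr 2
    exact Q283.T3.fcc2 _ _
  · obtain ⟨l, hl, h⟩ := Q283.Q3N.lln_exp hs n hn ε hε
    refine ⟨l, hl, h.congr fun X => ?_⟩
    exact prop_eq (fun D => ε ≤ |(goodCount m n D : ℝ) / n - c|) _
      (fun D hD => by rw [hcnt n D hD]; rfl) X
  · refine (Q283.Q3N.manyQ hs N).congr fun X => ?_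
    refine prop_eq _ _ (fun D hD => ?_) X
    refine exists_congr fun F => and_congr_right fun _ => forall_congr' fun k => forall_congr' fun _ => ?_
    exact ⟨fun h => ⟨(crit hm hD k).2.1 h, hbsd D hD k ((crit hm hD k).2.1 h)⟩,
      fun h => (crit hm hD k).2.2 h.1⟩
  · obtain ⟨a, X₀, ha, h⟩ := Q283.Q3N.low_SN
    refine ⟨a, X₀, ha, fun X hX => (h X hX).trans (le_of_eq ?_)⟩
    unfold count Q283.Q3N.SN
    congr 1
    refine Pool.Agent.XLK.fcc fun D _ => ?_
    rw [← class_iff]
    exact ⟨fun h => ⟨h, trivial⟩, fun h => h.1⟩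
  · obtain ⟨h1, -, -, h4⟩ := Pool.Agent.Y461.CX.t_C3
    refine ⟨h4, ?_⟩
    have h5 := (abs_le.1 (h1 10)).1
    have h6 : ∏ i ∈ Finset.range 10, (1 - (1 / 3 : ℝ) ^ (i + 1)) < 0.56015 := by
      norm_num [Finset.prod_range_succ]
    have h7 : (1 / 3 : ℝ) ^ 10 < 0.00002 := by norm_num
    have h8 : c = Pool.Agent.Y703.CX.c3 := rfl
    rw [h8]
    linarith

end Pool.Agent.Results.MP_696deb_nt.LawOfLargeNumbersTwists
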