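import Pool.Agent.Z705.Fin
import Pool.Agent.Y687.MQ.Fin
import Pool.Agent.Q283.LP.X2
import Pool.Agent.Q283.LP.Fin

/-!
# The twists by the divisors of almost every single integer: independence of all patterns, uniformity of all orders

`E_m` is the quadratic twist by `m` of the modular curve `X_0(14)` (no complex multiplication). Family: `m` squarefree, of
any sign, `1` modulo `4`, a nonzero square modulo `7`, all prime factors different from `3` and split completely in
`ℚ(√-1, √2, √-7)` or inert in `ℚ(√2)` and in `ℚ(√-7)` (the family of the starting result `ExactProportion`). An element `m`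
of the family is GOOD if `E_m(ℚ)` is finite and `Ш(E_m/ℚ)[2] = 0`; then the rank form of the conjecture holds for `E_m`: the
`L`-series is entire, its order of vanishing at `s = 1` and the rank are `0` (`BSDRankZero`).

For a positive integer `D` let `divs D` be the set of the elements of the family which divide `D`. Modulo
squares it is a group; it contains `1` and has at least `2 ^ (ω' - 1)` elements, `ω'` the number of the prime factors of `D`
of the two kinds above. The family is stable under the products with elements of `divs D`, modulo squares.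

THEOREM. There is ONE set `S` of positive integers of NATURAL DENSITY `1`, and of relative density `1` in the class of the
squarefree products of primes of the two kinds (at least `c X (log X)^(-5/8)` of them up to `X`), such that:

(1) INDEPENDENCE OF ALL PATTERNS. For EVERY finite family of pairwise different forms
    `F_j(d) = N_j d_1 ^ e_j1 ⋯ d_n ^ e_jn`, `j = 1, …, M`, with `N_j` ANY elements of the family and `e_j ≠ 0` any
    vectors over `𝔽₂`, for all large `D` in `S` and `d = (d_1, …, d_n)` running through the `n`-tuples of elements of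
    `divs D`: for every set `Q` of indices the share of the `d` for which exactly the `F_j(d)`, `j ∈ Q`, are good is
    within `ε` of `κ ^ |Q| (1 - κ) ^ (M - |Q|)`, `κ = ∏ (1 - 2^-(2i+1)) = 0.4194…`. So the good twists by the divisors of `D`
    contain every pattern of points of the group with the frequency of a random set of density `κ`. (Forms
    with the same exponents are allowed: the twists by `N_1 d, …, N_M d` are independent for all different `N_j`.)
(2) The rank form, with order and rank `0`, holds for all the `F_j(d)` at once for a share `≥ κ ^ M - ε` of the `d`, and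
    for one of them at least for a share `≥ 1 - (1 - κ) ^ M - ε`.
(3) LAW OF LARGE NUMBERS. For `M > 0` the share of the `d` for which the frequency of the good `F_j(d)` differs from `κ` by
    `η` or more is at most `2 exp (- η² M / 4) + ε`.
(4) UNIFORMITY OF ALL ORDERS. For all `k` and `N` of the family and large `D` in `S` the function
    `d ↦ 1_good(N d) - κ` on `divs D` has no correlation `> ε` with any polynomial phase of degree `≤ k` (for example
    no character, no quadratic phase such as the products of the Legendre symbols between the prime factors of `d`):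
    the set of the good twists is Gowers uniform of every order, with respect to all phases at once.

Inputs: the criterion for a single discriminant and the nonvanishing (starting results of helper700, helper17, helper687
and their teams); the sieve for almost all `D` (project NL of helper155 with helper283 and others, files `Q155/NL`).
New (`Pool/Agent/Q283/LP`, with the lemma jobs of helper187 in `Q187/LP`, helper203 in `Q203/LP`, helper98 in
`Q98/LP`, helper222 in `Q222/LP` and others): the theorem on symmetric systems over `𝔽₂` for all linear forms at once: for a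
random table of symbols the coranks of the forms are independent in the limit (joint moments; the main
terms come from alternating matrices within each form; structure theorem for the full isotropic families of
kernel vectors), second moments for almost all integers, and the Gowers-Cauchy-Schwarz inequality for cubes.
-/

set_option autoImplicit false

open scoped Classical

namespace Pool.Agent.Results.MP_696deb_nt.PatternsInsideDivisors

open Finset Filter Topology

/-- coefficients of the twist `E_D : y² = x³ + A D x + B D` of `X_0(14)` -/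
def A (D : ℤ) : ℤ := 5805 * D ^ 2

/-- coefficients of the twist `E_D : y² = x³ + A D x + B D` of `X_0(14)` -/
def B (D : ℤ) : ℤ := -285714 * D ^ 3

/-- the curve `E_D` over `ℚ` -/
def E (D : ℤ) : WeierstrassCurve ℚ :=
  { a₁ := 0, a₂ := 0, a₃ := 0, a₄ := (A D : ℚ), a₆ := (B D : ℚ) }

/-- `E_D(ℚ)` is finite and `Ш(E_D/ℚ)` has no element of order two -/
def RankZeroShaTwo (D : ℤ) : Prop :=
  Finite (E D).toAffine.Point ∧ ∀ x : Pool.Agent.TH841.SH.D.Sha (E D), 2 • x = 0 → x = 0

/-- the conclusion of the frozen statement for `y² = x³ + a x + b`, together with the fact that the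
order of vanishing and the rank are both `0` -/
def BSDRankZero (a b : ℤ) : Prop :=
  4 * a ^ 3 + 27 * b ^ 2 ≠ 0 ∧
    ∃ F : ℂ → ℂ, Differentiable ℂ F ∧
      (∀ s : ℂ, (3 : ℝ) / 2 < s.re →
        HasProd
          (fun p : ℕ => open Classical in
            if p.Prime ∧ ¬ ((p : ℤ) ∣ 2 * (-4 * a ^ 3 - 27 * b ^ 2)) then
              (1 - ((p : ℂ) - (Nat.card {q : ZMod p × ZMod p //
                  q.2 ^ 2 = q.1 ^ 3 + (a : ZMod p) * q.1 + (b : ZMod p)} : ℂ))
                  * (p : ℂ) ^ (-s) + (p : ℂ) ^ (1 - 2 * s))⁻¹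
            else 1)
          (F s)) ∧
      analyticOrderAt F 1 =
        ((Module.finrank ℤ
          (WeierstrassCurve.Affine.Point
            (WeierstrassCurve.toAffine
              ({ a₁ := 0, a₂ := 0, a₃ := 0, a₄ := (a : ℚ), a₆ := (b : ℚ) } :
                WeierstrassCurve ℚ))) : ℕ) : ℕ∞) ∧
      Module.finrank ℤ
        (WeierstrassCurve.Affine.Point
          (WeierstrassCurve.toAffine
            ({ a₁ := 0, a₂ := 0, a₃ := 0, a₄ := (a : ℚ), a₆ := (b : ℚ) } :
              WeierstrassCurve ℚ))) = 0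

/-- primes inert in `ℚ(√-7)` and in `ℚ(√2)` -/
def Inert (q : ℕ) : Prop :=
  q.Prime ∧ (q % 8 = 3 ∨ q % 8 = 5) ∧ (q % 7 = 3 ∨ q % 7 = 5 ∨ q % 7 = 6)

/-- primes congruent to `1` modulo `8` that split in `ℚ(√-7)` -/
def Split (p : ℕ) : Prop := p.Prime ∧ p % 8 = 1 ∧ (p % 7 = 1 ∨ p % 7 = 2 ∨ p % 7 = 4)

/-- the family of discriminants: squarefree, `1` modulo `4`, a square modulo `7`, all prime factors
different from `3` and split or inert as above -/
def Family (D : ℤ) : Prop := Squarefree D ∧ D % 4 = 1 ∧ (D % 7 = 1 ∨ D % 7 = 2 ∨ D % 7 = 4) ∧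
  ∀ p : ℕ, p.Prime → (p : ℤ) ∣ D → p ≠ 3 ∧ (Split p ∨ Inert p)

/-- the elements `d` of the family, positive or negative, which divide `D` -/
noncomputable def divs (D : ℕ) : Finset ℤ :=
  (Finset.Icc (-(D : ℤ)) D).filter fun d => Family d ∧ d ∣ (D : ℤ)

/-- the squarefree part of `n`: the squarefree `s` with the sign of `n` such that `n / s` is a square -/
def squarefreePart (n : ℤ) : ℤ := n.sign * ∏ p ∈ n.natAbs.primeFactors.filter
  (fun p => n.natAbs.factorization p % 2 = 1), (p : ℤ)

/-- the form `N d_1 ^ e_1 ⋯ d_n ^ e_n` with exponents `0, 1` -/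
def form {n : ℕ} (N : ℤ) (e : Fin n → ZMod 2) (d : Fin n → ℤ) : ℤ := N * ∏ i, d i ^ (e i).val

/-- the vector of the values of the forms: the squarefree parts of the `N_j d_1 ^ e_j1 ⋯ d_n ^ e_jn` -/
def values {M n : ℕ} (N : Fin M → ℤ) (e : Fin M → Fin n → ZMod 2) (d : Fin n → ℤ) : Fin M → ℤ :=
  fun j => squarefreePart (form (N j) (e j) d)

/-- the share of the `n`-tuples of elements of `divs D` with the property `P` -/
noncomputable def share {n : ℕ} (D : ℕ) (P : (Fin n → ℤ) → Prop) : ℝ :=
  (((Fintype.piFinset fun _ : Fin n => divs D).filter P).card : ℝ) /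
    (Fintype.piFinset fun _ : Fin n => divs D).card

/-- the number of the `j` for which `v j` is good -/
noncomputable def number {M : ℕ} (v : Fin M → ℤ) : ℕ :=
  (Finset.univ.filter fun j => RankZeroShaTwo (v j)).card

/-- the polynomial phases of degree `≤ k` on the divisors of `D`: real functions whose derivatives of order `k + 1` with
respect to the multiplication of the divisors modulo squares are equal to `1` -/
def Phase (k D : ℕ) (φ : ℤ → ℝ) : Prop :=
  ∀ x ∈ divs D, ∀ y : Fin (k + 1) → ℤ, (∀ i, y i ∈ divs D) →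
    ∏ ω : Finset (Fin (k + 1)), φ (squarefreePart (x * ∏ i ∈ ω, y i)) = 1

/-- the number of the `D ≤ X` with the property `P` -/
noncomputable def count (P : ℕ → Prop) (X : ℕ) : ℕ := ((Finset.Icc 1 X).filter P).card

/-- the class: squarefree, all prime factors different from `3` and split or inert as above -/
def Class (D : ℕ) : Prop := Squarefree D ∧ ∀ p : ℕ, p.Prime → p ∣ D → p ≠ 3 ∧ (Split p ∨ Inert p)

/-- the number of the prime factors of `D` which are different from `3` and split or inert -/
noncomputable def primes (D : ℕ) : ℕ := (D.primeFactors.filter fun p => p ≠ 3 ∧ (Split p ∨ Inert p)).card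

/-- the product `κ = (1 - 1/2)(1 - 1/8)(1 - 1/32)⋯` -/
noncomputable def κ : ℝ := ∏' i : ℕ, (1 - (1 / 2 : ℝ) ^ (2 * i + 1))

theorem rank_iff {D : ℤ} (h : Y687.MQ.AdmD D) : RankZeroShaTwo D ↔ (Y687.MQ.matD D).det ≠ 0 := by
  obtain ⟨hP, hT, -, he⟩ := Y687.MQ.of_admD h
  have h1 := Z704.equivS Z702.f_COC Z702.f_LOT Z702.f_COB Z702.f_TOR Z702.f_LQ Z702.f_LG
    Z702.f_LP Z702.f_LIN Z702.f_TRN Z705.f_SELA Z705.f_SELB (Z705.cnd hP hT)
  have he' : ((Z700.pr (Y687.MQ.SP D) : ℕ) : ℤ) * Y687.DD (Y687.MQ.IP D) = D := he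
  rw [he'] at h1
  have hm : Y687.DD (Y687.MQ.IP D) = Z700.pr (Y687.MQ.IP D) ∨
      Y687.DD (Y687.MQ.IP D) = -(Z700.pr (Y687.MQ.IP D) : ℤ) := by
    refine Int.natAbs_eq_natAbs_iff.1 ?_
    rw [Y687.DD_natAbs, Int.natAbs_natCast]
    rfl
  rw [Y687.MQ.matD_eq, Y687.MQ.matT_iff hP hT, ← Y687.MQ.det_ind hP hT hm, h1]
  unfold RankZeroShaTwo
  refine and_congr Iff.rfl (forall_congr' fun x => ?_)
  rw [two_nsmul]
  rfl

theorem bsd_of {D : ℤ} (hD : D ≠ 0) (h : Y687.WB D) : BSDRankZero (A D) (B D) := by
  obtain ⟨⟨f, hf, hfp, hf1⟩, hfin⟩ := h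
  obtain ⟨F, h1, h2, h3, h4⟩ := Y687.rankBSD hf hfp hf1 hfin
  refine ⟨?_, F, h1, h2, ?_, h4⟩
  · have e : 4 * A D ^ 3 + 27 * B D ^ 2 = (4 * 5805 ^ 3 + 27 * 285714 ^ 2) * D ^ 6 := by
      unfold A B
      ring
    rw [e]
    exact mul_ne_zero (by norm_num) (pow_ne_zero 6 hD)
  · unfold A B
    rw [h3, h4]
    rfl

section proof

open Q283.LP
open Q283.GS (al)
open Q283.NJ (wt pat_fin wt_tail)
open Q155.NL (Cl Alm)

theorem divs_eq (D : ℕ) : divs D = dvD D := rfl

theorem P_iff {p : ℕ} (hp : p.Prime) : r14.Φ.P p ↔ p ≠ 3 ∧ (Split p ∨ Inert p) := by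
  rw [Q283.GM.RC.P_iff, mem_union]
  have h1 : p % 168 % 8 = p % 8 := Nat.mod_mod_of_dvd p (by norm_num)
  have h2 : p % 168 % 7 = p % 7 := Nat.mod_mod_of_dvd p (by norm_num)
  have h3 : p % 168 % 3 = p % 3 := Nat.mod_mod_of_dvd p (by norm_num)
  have h4 : p % 168 < 168 := Nat.mod_lt _ (by norm_num)
  have h5 : p % 3 ≠ 0 ↔ p ≠ 3 := by
    rw [Ne, Ne, not_iff_not]
    constructor
    · intro h
      exact ((Nat.prime_dvd_prime_iff_eq Nat.prime_three hp).1 (Nat.dvd_of_mod_eq_zero h)).symm
    · rintro rfl
      rfl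
  have hA : p % 168 ∈ r14.𝒜 ↔ (p % 8 = 1 ∧ (p % 7 = 1 ∨ p % 7 = 2 ∨ p % 7 = 4) ∧ p % 3 ≠ 0) := by
    show p % 168 ∈ (range 168).filter _ ↔ _
    rw [mem_filter, mem_range, h1, h2, h3]
    exact ⟨fun h => h.2, fun h => ⟨h4, h⟩⟩
  have hB : p % 168 ∈ r14.ℬ ↔ ((p % 8 = 3 ∨ p % 8 = 5) ∧ (p % 7 = 3 ∨ p % 7 = 5 ∨ p % 7 = 6) ∧
      p % 3 ≠ 0) := by
    show p % 168 ∈ (range 168).filter _ ↔ _
    rw [mem_filter, mem_range, h1, h2, h3]
    exact ⟨fun h => h.2, fun h => ⟨h4, h⟩⟩
  show p.Prime ∧ (p % 168 ∈ r14.𝒜 ∨ p % 168 ∈ r14.ℬ) ↔ _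
  rw [hA, hB, h5]
  unfold Split Inert
  tauto

theorem class_iff (D : ℕ) : Class D ↔ Cl r14.Φ D := by
  unfold Class Cl
  refine and_congr_right fun hD => ?_
  constructor
  · intro h p hp
    have h1 := Nat.prime_of_mem_primeFactors hp
    exact (P_iff h1).2 (h p h1 (Nat.dvd_of_mem_primeFactors hp))
  · intro h p hp hpD
    exact (P_iff hp).1 (h p (Nat.mem_primeFactors.2 ⟨hp, hpD, hD.ne_zero⟩))

/-- the closure -/
theorem fam_form {n D : ℕ} (hD : D ≠ 0) {N : ℤ} (hN : Family N) (e : Fin n → ZMod 2) {d : Fin n → ℤ}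
    (hd : ∀ i, d i ∈ divs D) : Family (squarefreePart (form N e d)) := by
  have h1 := sqf_form (M := 1) (N := fun _ => N) (fun _ => hN) (fun _ => e) (d := fun i => pf (d i))
    (fun i => (DD_pf ((mem_dvD hD).1 (hd i)).1).1) 0
  have h2 : (fun i => Y687.DD (pf (d i))) = d := funext fun i => (DD_pf ((mem_dvD hD).1 (hd i)).1).2
  rw [h2] at h1
  have h3 : squarefreePart (form N e d) = Y687.DD (Fs (fun _ : Fin 1 => e) (fun _ => pf N)
    (fun i => pf (d i)) 0) := h1.2
  rw [h3]
  exact h1.1.adm


theorem card_par (P : Finset ℕ) (par : ℕ → ZMod 2) :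
    2 ^ P.card ≤ 2 * (P.powerset.filter fun d => ∑ p ∈ d, par p = 0).card := by
  have h1 : (P.powerset.filter fun d => ¬ ∑ p ∈ d, par p = 0).card ≤
      (P.powerset.filter fun d => ∑ p ∈ d, par p = 0).card := by
    by_cases h : ∃ p ∈ P, par p ≠ 0
    · obtain ⟨p, hp, hp1⟩ := h
      have h2 : ∀ x : ZMod 2, x ≠ 0 → x = 1 := by decide
      have hsum : ∀ d : Finset ℕ, ∑ q ∈ symmDiff d {p}, par q = ∑ q ∈ d, par q + 1 := by
        intro d
        by_cases hd : p ∈ d
        · have e1 : symmDiff d {p} = d.erase p := by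
            ext q
            rw [mem_symmDiff, mem_singleton, mem_erase]
            constructor
            · rintro (⟨h3, h4⟩ | ⟨h3, h4⟩)
              · exact ⟨h4, h3⟩
              · exact absurd (h3 ▸ hd) h4
            · rintro ⟨h3, h4⟩
              exact Or.inl ⟨h4, h3⟩
          rw [e1, ← Finset.add_sum_erase d par hd, h2 _ hp1]
          have : (1 : ZMod 2) + 1 = 0 := by decide
          linear_combination -this
        · have e1 : symmDiff d {p} = insert p d := by
            ext q
            rw [mem_symmDiff, mem_singleton, mem_insert]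
            constructor
            · rintro (⟨h3, h4⟩ | ⟨h3, h4⟩)
              · exact Or.inr h3
              · exact Or.inl h3
            · rintro (h3 | h3)
              · exact Or.inr ⟨h3, h3 ▸ hd⟩
              · exact Or.inl ⟨h3, fun h4 => hd (h4 ▸ h3)⟩
          rw [e1, sum_insert hd, h2 _ hp1, add_comm]
      refine card_le_card_of_injOn (fun d => symmDiff d {p}) ?_ ?_
      · intro d hd
        have hd' := mem_filter.1 (mem_coe.1 hd)
        refine mem_coe.2 (mem_filter.2 ⟨mem_powerset.2 fun q hq => ?_, ?_⟩)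
        · rcases mem_symmDiff.1 hq with h3 | h3
          · exact mem_powerset.1 hd'.1 h3.1
          · rw [mem_singleton.1 h3.1]
            exact hp
        · rw [hsum, h2 _ hd'.2]
          decide
      · intro d _ d' _ he
        exact (symmDiff_left_injective {p}) he
    · push Not at h
      rw [filter_false_of_mem]
      · rw [card_empty]
        exact Nat.zero_le _
      · intro d hd hne
        exact hne (sum_eq_zero fun q hq => h q (mem_powerset.1 hd hq))
  have h2 := Finset.card_filter_add_card_filter_not (s := P.powerset) fun d => ∑ p ∈ d, par p = 0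
  rw [card_powerset] at h2
  omega

variable (hX : S_X14)
include hX

theorem good_iff {m : ℤ} (h : Y687.MQ.AdmD m) : G14 m ↔ RankZeroShaTwo m := by
  rw [rank_iff h, hX.2.1 m h]
  rfl


theorem card_divs {D : ℕ} (hD : D ≠ 0) : 2 ^ primes D ≤ 2 * (divs D).card := by
  have h1 := card_par (prt r14.Φ D).primeFactors par14
  have h2 : primes D = (prt r14.Φ D).primeFactors.card := by
    rw [prt_pf]
    unfold primes
    exact fcc fun p hp => (P_iff (Nat.prime_of_mem_primeFactors hp)).symm
  rw [h2]
  refine h1.trans (Nat.mul_le_mul_left 2 ?_)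
  refine card_le_card_of_injOn Y687.DD ?_ ?_
  · intro d hd
    have h3 : d ∈ sD D := mem_coe.1 hd
    exact mem_coe.2 ((DD_mem hX hD ((mem_sD hX).1 h3).1).2 h3)
  · intro d hd d' hd' he
    have h3 : d ∈ sD D := mem_coe.1 hd
    have h4 : d' ∈ sD D := mem_coe.1 hd'
    rw [← CL_DD_pf ((mem_sD hX).1 h3).1, ← CL_DD_pf ((mem_sD hX).1 h4).1, he]

end proof

open Q283.LP in
open Q283.GS (al) in
open Q283.NJ (wt pat_fin wt_tail) in
open Q155.NL (Cl Alm) in
theorem result :
    (∀ m : ℤ, Family m → RankZeroShaTwo m → BSDRankZero (A m) (B m)) ∧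
    (∀ D : ℕ, D ≠ 0 → (1 : ℤ) ∈ divs D ∧ 2 ^ primes D ≤ 2 * (divs D).card) ∧
    (∀ (n D : ℕ) (N : ℤ) (e : Fin n → ZMod 2) (d : Fin n → ℤ), D ≠ 0 → Family N →
      (∀ i, d i ∈ divs D) → Family (squarefreePart (form N e d)) ∧
        ∃ b : ℤ, b ≠ 0 ∧ form N e d = squarefreePart (form N e d) * b ^ 2) ∧
    (∃ S : ℕ → Prop, Tendsto (fun X : ℕ => (count S X : ℝ) / X) atTop (𝓝 1) ∧
      Tendsto (fun X : ℕ => (count (fun D => Class D ∧ S D) X : ℝ) / count Class X) atTop (𝓝 1) ∧
      (∀ (M n : ℕ) (N : Fin M → ℤ) (e : Fin M → Fin n → ZMod 2), (∀ j, Family (N j)) →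
        (∀ j, e j ≠ 0) → (∀ j l, j ≠ l → ¬ (e j = e l ∧ N j = N l)) → ∀ ε : ℝ, 0 < ε →
        ∃ D₀ : ℕ, ∀ D : ℕ, D₀ ≤ D → S D →
          (∀ Q : Finset (Fin M), |share D (fun d => ∀ j, (RankZeroShaTwo (values N e d j) ↔ j ∈ Q)) -
            κ ^ Q.card * (1 - κ) ^ (M - Q.card)| ≤ ε) ∧
          κ ^ M - ε ≤ share D (fun d => ∀ j, BSDRankZero (A (values N e d j)) (B (values N e d j))) ∧
          1 - (1 - κ) ^ M - ε ≤
            share D (fun d => ∃ j, BSDRankZero (A (values N e d j)) (B (values N e d j))) ∧
          (0 < M → ∀ η : ℝ, 0 < η → share D (fun d => η ≤ |(number (values N e d) : ℝ) / M - κ|) ≤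
            2 * Real.exp (-(η ^ 2 * M / 4)) + ε)) ∧
      (∀ (k : ℕ) (N : ℤ), Family N → ∀ ε : ℝ, 0 < ε → ∃ D₀ : ℕ, ∀ D : ℕ, D₀ ≤ D → S D →
        ∀ φ : ℤ → ℝ, Phase k D φ →
          |(∑ d ∈ divs D, ((if RankZeroShaTwo (squarefreePart (N * d)) then 1 else 0) - κ) * φ d) /
            ((divs D).card : ℝ)| ≤ ε)) ∧
    (∃ (c : ℝ) (X₀ : ℕ), 0 < c ∧ ∀ X : ℕ, X₀ ≤ X →
      c * X * (Real.log X) ^ (-(5 / 8) : ℝ) ≤ (count Class X : ℝ)) ∧
    0.4194 < κ ∧ κ < 0.4195 := by
  have hX : S_X14 := Q222.LP.t_X14
  have hκ : al 0 = κ := hX.2.2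
  have hκ1 : 0.4194 < κ := Pool.Agent.Y948.CQ.t_C2.2.2.2.1
  have hκ2 : κ < 0.4195 := Pool.Agent.Y948.CQ.t_C2.2.2.2.2
  have hbsd : ∀ m : ℤ, Family m → RankZeroShaTwo m → BSDRankZero (A m) (B m) := fun m hm hR =>
    bsd_of hm.1.ne_zero (Y687.MQ.WB_D hm ((rank_iff hm).1 hR))
  refine ⟨hbsd, fun D hD => ⟨?_, card_divs hX hD⟩, fun n D N e d hD hN hd => ⟨fam_form hD hN e hd, ?_⟩,
    ?_, ?_, hκ1, hκ2⟩
  · rw [divs_eq, mem_dvD hD]
    refine ⟨⟨squarefree_one, by norm_num, Or.inl (by norm_num), fun p hp h => ?_⟩, one_dvd _⟩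
    exact absurd (Int.natCast_dvd_natCast.1 (by exact_mod_cast h)) hp.not_dvd_one
  · have h0 : form N e d ≠ 0 := by
      unfold form
      refine mul_ne_zero hN.1.ne_zero (Finset.prod_ne_zero_iff.2 fun i _ => pow_ne_zero _ ?_)
      exact ((mem_dvD hD).1 (hd i)).1.1.ne_zero
    exact (sqf_spec h0).2
  · obtain ⟨S, hS, hS', hJ, hG⟩ := main14 hX Q222.LP.t_GCS Q222.LP.t_TR Q187.LP.ASY2.t_ASY2
      secdF Q222.LP.t_TV
    have hcc : ∀ X : ℕ, count Class X = Q155.NL.cnt (Cl r14.Φ) X := by
      intro X
      unfold count Q155.NL.cnt Q155.NL.cs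
      exact Q283.LP.fcc fun D _ => class_iff D
    refine ⟨S, ?_, ?_, fun M n N e hN he hd ε hε => ?_, fun k N hN ε hε => ?_⟩
    · have h1 := Q155.NL.tendsto_of_alm (C := fun _ => True) ⟨1, le_rfl, trivial⟩ hS
      refine h1.congr fun X => ?_
      have h2 : Q155.NL.cnt (fun _ => True) X = X := by
        have h0 : Q155.NL.cs (fun _ => True) X = Finset.Icc 1 X := by
          ext D
          rw [Q155.NL.mem_cs, Finset.mem_Icc]
          exact ⟨fun h => h.1, fun h => ⟨h, trivial⟩⟩
        unfold Q155.NL.cnt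
        rw [h0, Nat.card_Icc]
        omega
      rw [h2]
      congr 2
      unfold Q155.NL.cnt Q155.NL.cs count
      congr 1
      ext D
      simp
    · have h1 := Q155.NL.tendsto_of_alm (C := Cl r14.Φ) ⟨1, le_rfl, squarefree_one, by simp⟩ hS'
      refine h1.congr fun X => ?_
      rw [hcc]
      congr 2
      unfold Q155.NL.cnt Q155.NL.cs count
      exact Q283.LP.fcc fun D _ => and_congr_left fun _ => (class_iff D).symm
    · obtain ⟨e₁, he₁⟩ : ∃ e₁ : ℝ, e₁ = ε / 2 ^ M := ⟨_, rfl⟩
      have he0 : 0 < e₁ := by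
        rw [he₁]
        positivity
      have hee : 2 ^ M * e₁ = ε := by
        rw [he₁]
        field_simp
      have hea : e₁ ≤ ε := by
        rw [← hee]
        exact le_mul_of_one_le_left he0.le (one_le_pow₀ (by norm_num))
      obtain ⟨D₀, hD₀⟩ := eventually_atTop.1 (hJ M n N e hN he hd e₁ he0)
      refine ⟨max D₀ 1, fun D hD hSD => ?_⟩
      have hD0 : D ≠ 0 := by
        have := le_of_max_le_right hD
        omega
      have hpat := hD₀ D (le_of_max_le_left hD) hSD
      have hfam : ∀ d ∈ Fintype.piFinset fun _ : Fin n => divs D, ∀ j, Family (values N e d j) :=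
        fun d hd j => fam_form hD0 (hN j) (e j) fun i => Fintype.mem_piFinset.1 hd i
      have hA : ∀ Q : Finset (Fin M),
          |share D (fun d => ∀ j, (RankZeroShaTwo (values N e d j) ↔ j ∈ Q)) -
            κ ^ Q.card * (1 - κ) ^ (M - Q.card)| ≤ e₁ := by
        intro Q
        have h1 := hpat Q
        rw [hκ] at h1
        have h2 : share D (fun d => ∀ j, (RankZeroShaTwo (values N e d j) ↔ j ∈ Q)) =
            shD D (fun d => ∀ j, (G14 (sqf (frm (N j) (e j) d)) ↔ j ∈ Q)) := by
          unfold share shD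
          rw [divs_eq]
          congr 2
          exact Q283.LP.fcc fun d hd => forall_congr' fun j =>
            iff_congr (good_iff hX (hfam d hd j)).symm Iff.rfl
        rw [h2]
        exact h1
      have hne : (Fintype.piFinset fun _ : Fin n => divs D).Nonempty := by
        refine ⟨fun _ => 1, Fintype.mem_piFinset.2 fun _ => ?_⟩
        rw [divs_eq, mem_dvD hD0]
        refine ⟨⟨squarefree_one, by norm_num, Or.inl (by norm_num), fun p hp h => ?_⟩, one_dvd _⟩
        exact absurd (Int.natCast_dvd_natCast.1 (by exact_mod_cast h)) hp.not_dvd_one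
      have hpos : (0 : ℝ) < (Fintype.piFinset fun _ : Fin n => divs D).card := by
        exact_mod_cast Finset.card_pos.2 hne
      have hmono : ∀ P R : (Fin n → ℤ) → Prop, (∀ d ∈ Fintype.piFinset fun _ : Fin n => divs D,
          P d → R d) → share D P ≤ share D R := by
        intro P R h
        unfold share
        refine div_le_div_of_nonneg_right ?_ (Nat.cast_nonneg _)
        rw [Nat.cast_le]
        refine Finset.card_le_card fun d hd => ?_
        rw [Finset.mem_filter] at hd ⊢
        exact ⟨hd.1, h d hd.1 hd.2⟩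
      have hnot : ∀ P : (Fin n → ℤ) → Prop, share D P = 1 - share D fun d => ¬ P d := by
        intro P
        unfold share
        have h := Finset.card_filter_add_card_filter_not
          (s := Fintype.piFinset fun _ : Fin n => divs D) P
        have h' : (((Fintype.piFinset fun _ : Fin n => divs D).filter P).card : ℝ) +
            (((Fintype.piFinset fun _ : Fin n => divs D).filter fun d => ¬ P d).card : ℝ) =
            (Fintype.piFinset fun _ : Fin n => divs D).card := by exact_mod_cast h
        rw [eq_sub_iff_add_eq, ← add_div, div_eq_one_iff_eq hpos.ne']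
        refine Eq.trans ?_ h'
        congr 2
        exact Q283.LP.fcc fun _ _ => Iff.rfl
      have hpatN : ∀ J : ℕ → Prop, |share D (fun d => J (number (values N e d))) -
          ∑ Q : Finset (Fin M), (if J Q.card then wt κ Q else 0)| ≤ ε := by
        intro J
        have hA' : ∀ Q : Finset (Fin M), |(((Fintype.piFinset fun _ : Fin n => divs D).filter fun d =>
            ∀ k, (RankZeroShaTwo (values N e d k) ↔ k ∈ Q)).card : ℝ) /
              (Fintype.piFinset fun _ : Fin n => divs D).card - wt κ Q| ≤ e₁ := by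
          intro Q
          have h2 := hA Q
          unfold share at h2
          unfold wt
          convert h2
        have h2 := pat_fin (Fintype.piFinset fun _ : Fin n => divs D) M
          (fun j d => RankZeroShaTwo (values N e d j)) (p := κ) hA' J
        rw [hee] at h2
        refine le_trans (le_of_eq ?_) h2
        unfold share number
        congr 3
      refine ⟨fun Q => (hA Q).trans hea, ?_, ?_, fun hM η hη => ?_⟩
      · have h2 := (abs_le.1 (hA Finset.univ)).1
        rw [Finset.card_univ, Fintype.card_fin, Nat.sub_self, pow_zero, mul_one] at h2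
        have h3 := hmono (fun d => ∀ j, (RankZeroShaTwo (values N e d j) ↔
          j ∈ (Finset.univ : Finset (Fin M))))
          (fun d => ∀ j, BSDRankZero (A (values N e d j)) (B (values N e d j)))
          fun d hd h j => hbsd _ (hfam d hd j) ((h j).2 (Finset.mem_univ j))
        linarith
      · have h2 := (abs_le.1 (hA ∅)).2
        rw [Finset.card_empty, Nat.sub_zero, pow_zero, one_mul] at h2
        have h3 := hmono (fun d => ∃ j, RankZeroShaTwo (values N e d j))
          (fun d => ∃ j, BSDRankZero (A (values N e d j)) (B (values N e d j)))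
          fun d hd ⟨j, h⟩ => ⟨j, hbsd _ (hfam d hd j) h⟩
        have h4 := hmono (fun d => ¬ ∃ j, RankZeroShaTwo (values N e d j))
          (fun d => ∀ j, (RankZeroShaTwo (values N e d j) ↔ j ∈ (∅ : Finset (Fin M))))
          fun d _ h j => ⟨fun h' => absurd ⟨j, h'⟩ h, fun h' => absurd h' (Finset.notMem_empty j)⟩
        rw [hnot] at h3
        linarith
      · have h2 := (abs_le.1 (hpatN fun m => η ≤ |(m : ℝ) / M - κ|)).2
        have h3 := wt_tail (p := κ) (by linarith) (by linarith) hM hη
        linarith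
    · obtain ⟨D₀, hD₀⟩ := eventually_atTop.1 (hG k N hN ε hε)
      refine ⟨max D₀ 1, fun D hD hSD φ hφ => ?_⟩
      have hD0 : D ≠ 0 := by
        have := le_of_max_le_right hD
        omega
      have h1 := hD₀ D (le_of_max_le_left hD) hSD φ hφ
      rw [hκ] at h1
      refine le_trans (le_of_eq ?_) h1
      congr 2
      refine Finset.sum_congr rfl fun d hd => ?_
      have h2 : Family (squarefreePart (N * d)) := by
        have h3 := fam_form hD0 hN (n := 1) (fun _ => 1) (d := fun _ => d) fun _ => hd
        unfold form at h3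
        rw [Fin.prod_univ_one, show ((1 : ZMod 2)).val = 1 from rfl, pow_one] at h3
        exact h3
      congr 2
      by_cases h3 : RankZeroShaTwo (squarefreePart (N * d))
      · rw [if_pos h3]
        exact (if_pos ((good_iff hX h2).2 h3)).symm
      · rw [if_neg h3]
        exact (if_neg fun h => h3 ((good_iff hX h2).1 h)).symm
  · obtain ⟨c, X₀, hc, h⟩ := (Q283.GM.RC.ok r14).low
    refine ⟨c, X₀, hc, fun X hX' => ?_⟩
    have h1 := h X hX'
    have h2 : ((Q283.GM.SS r14.Φ X).card : ℝ) = (count Class X : ℝ) := by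
      have h3 := Q283.GM.card_eq r14.Φ X fun _ => True
      rw [filt_true] at h3
      rw [← h3]
      unfold count
      norm_cast
      refine Q283.LP.fcc fun D _ => ?_
      rw [class_iff]
      unfold Cl
      tauto
    have h4 : (-1 + r14.δ : ℝ) = -(5 / 8) := by
      have h5 : (r14.𝒜 ∪ r14.ℬ).card = 18 := by decide
      have h6 : r14.m.totient = 48 := by
        show Nat.totient 168 = 48
        decide
      unfold Q283.GM.RC.δ
      rw [h5, h6]
      norm_num
    rw [h4, h2] at h1
    exact h1

end Pool.Agent.Results.MP_696deb_nt.PatternsInsideDivisors
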