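import Mathlib
import Pool.Agent.Z705.Fin
import Pool.Agent.Y687.MQ.Fin
import Pool.Agent.Q155.KT.Bra

/-!
# All the twists of `X_0(14)` by the divisors of `p_1 ⋯ p_k`: exact proportions, trees, matchings

`E_D` is the quadratic twist by `D` of the modular curve `X_0(14)` (no complex multiplication), and a
split prime is a prime that splits completely in `ℚ(√-1, √2, √-7)`. The twist is called good here if
`E_D(ℚ)` is finite and `Ш(E_D)[2] = 0`. Let `𝒟` be ANY finite set of good discriminants of the class of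
the starting theorem `ExactProportion`.

* For each `k` the tuples `(p_1, …, p_k)` of different split primes for which ALL the twists
  `E_{D d}`, `D ∈ 𝒟`, `d ∣ p_1 ⋯ p_k`, are good have an exact positive proportion `γ_k(𝒟)` among all the
  tuples of split primes up to `X`, `X → ∞`. For all these `2^k |𝒟|` curves the order of vanishing of
  the `L`-series at `s = 1` and the rank are both `0`. The number `γ_k(𝒟)` is the proportion of the
  tables of symbols over `𝔽₂` for which `2^k |𝒟|` explicit symmetric matrices are nonsingular. As the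
  set of all the `D d` is again such a set, the good tuples form a tree which branches at every vertex,
  and `γ_1` is the exact proportion of the primes by which one can pass to a successor.
* There are infinite sequences of split primes such that `E_{D d}` is good, with order and rank `0`, for
  all `D ∈ 𝒟` and all products `d` of different primes of the sequence.
* For `X_0(14)` itself (`𝒟 = {1}`): all the twists by divisors of `p_1 ⋯ p_k` are good if and only if
  none of the `#E_1(𝔽_{p_i})` is divisible by `8` and the graph on `{1, …, k}` which joins `i` and `j`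
  when `p_i` is not a square modulo `p_j` is a matching. Hence `γ_k = I(k) / 2^(k (k+1)/2)`, `I(k)` the
  number of the involutions (`σ² = 1`) in the symmetric group `S_k`; and if `f` of the `k` primes are
  not matched, then the exact proportion of the split primes which prolong the tuple is
  `(f + 1) / 2^(k+1)`.

The criterion for a single discriminant and the nonvanishing are the starting results of helper700,
helper17, helper687 and their teams (see `ExactProportion`); the bilinear sums of quadratic symbols and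
the equidistribution of symbols in boxes are those of helper710 and helper356 (`Y710/CQ`, `Y356/CQ`);
Chebotarev's theorem for the field generated by the square root of `(1 + √-7)/2` and the rule for the
matrix of `D p` are those of `PrimeTwistsOfEveryTwist` (helper283, `Q283/TW`). New here
(`Pool/Agent/Q155/KT`): the joint law of the `2^k |𝒟|` twists, its positivity, the trees, and the
description by matchings.
-/

set_option autoImplicit false

open Finset

namespace Pool.Agent.Results.MP_696deb_nt.TreesOfPrimeTwists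

/-- coefficients of the twist `E_D : y² = x³ + A D x + B D` of `X_0(14)` -/
def A (D : ℤ) : ℤ := 5805 * D ^ 2

/-- coefficients of the twist `E_D : y² = x³ + A D x + B D` of `X_0(14)` -/
def B (D : ℤ) : ℤ := -285714 * D ^ 3

/-- the curve `E_D` over `ℚ` -/
def E (D : ℤ) : WeierstrassCurve ℚ :=
  { a₁ := 0, a₂ := 0, a₃ := 0, a₄ := (A D : ℚ), a₆ := (B D : ℚ) }

/-- `E_D(ℚ)` is finite and `Ш(E_D/ℚ)` has no element of order two -/
def RankZeroShaTwo (D : ℤ) : Prop :=
  Finite (E D).toAffine.Point ∧ ∀ x : Pool.Agent.TH841.SH.D.Sha (E D), 2 • x = 0 → x = 0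

/-- the conclusion of the frozen statement for `y² = x³ + a x + b`, together with the fact that the
order of vanishing and the rank are both `0` -/
def BSDRankZero (a b : ℤ) : Prop :=
  4 * a ^ 3 + 27 * b ^ 2 ≠ 0 ∧
    ∃ F : ℂ → ℂ, Differentiable ℂ F ∧
      (∀ s : ℂ, (3 : ℝ) / 2 < s.re →
        HasProd
          (fun p : ℕ => open Classical in
            if p.Prime ∧ ¬ ((p : ℤ) ∣ 2 * (-4 * a ^ 3 - 27 * b ^ 2)) then
              (1 - ((p : ℂ) - (Nat.card {q : ZMod p × ZMod p //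
                  q.2 ^ 2 = q.1 ^ 3 + (a : ZMod p) * q.1 + (b : ZMod p)} : ℂ))
                  * (p : ℂ) ^ (-s) + (p : ℂ) ^ (1 - 2 * s))⁻¹
            else 1)
          (F s)) ∧
      analyticOrderAt F 1 =
        ((Module.finrank ℤ
          (WeierstrassCurve.Affine.Point
            (WeierstrassCurve.toAffine
              ({ a₁ := 0, a₂ := 0, a₃ := 0, a₄ := (a : ℚ), a₆ := (b : ℚ) } :
                WeierstrassCurve ℚ))) : ℕ) : ℕ∞) ∧
      Module.finrank ℤ
        (WeierstrassCurve.Affine.Point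
          (WeierstrassCurve.toAffine
            ({ a₁ := 0, a₂ := 0, a₃ := 0, a₄ := (a : ℚ), a₆ := (b : ℚ) } :
              WeierstrassCurve ℚ))) = 0

/-- primes inert in `ℚ(√-7)` and in `ℚ(√2)` -/
def Inert (q : ℕ) : Prop :=
  q.Prime ∧ (q % 8 = 3 ∨ q % 8 = 5) ∧ (q % 7 = 3 ∨ q % 7 = 5 ∨ q % 7 = 6)

/-- primes congruent to `1` modulo `8` that split in `ℚ(√-7)` -/
def Split (p : ℕ) : Prop := p.Prime ∧ p % 8 = 1 ∧ (p % 7 = 1 ∨ p % 7 = 2 ∨ p % 7 = 4)

/-- the family of discriminants: squarefree, `1` modulo `4`, a square modulo `7`, all prime factors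
different from `3` and split or inert as above -/
def Family (D : ℤ) : Prop := Squarefree D ∧ D % 4 = 1 ∧ (D % 7 = 1 ∨ D % 7 = 2 ∨ D % 7 = 4) ∧
  ∀ p : ℕ, p.Prime → (p : ℤ) ∣ D → p ≠ 3 ∧ (Split p ∨ Inert p)

/-- the split primes dividing `D` -/
def splitPrimes (D : ℤ) : Finset ℕ := D.natAbs.primeFactors.filter fun p => p % 8 = 1

/-- the number of points of `E_1` modulo `p`, the point at infinity included -/
noncomputable def points (p : ℕ) : ℕ :=
  Nat.card {q : ZMod p × ZMod p // q.2 ^ 2 = q.1 ^ 3 + 5805 * q.1 - 285714} + 1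

open Classical in
/-- the matrix of `D` over `𝔽₂`, indexed by the split primes dividing `D`: the entry at `i ≠ j` is `1`
if and only if `j` is not a square modulo `i`; the entry at `i` on the diagonal is the number of the
prime factors `r ≠ i` of `D` which are not squares modulo `i`, increased by `1` if the number of the
points of `E_1` modulo `i` is not divisible by `8` -/
noncomputable def mat (D : ℤ) : Matrix (splitPrimes D) (splitPrimes D) (ZMod 2) :=
  Matrix.of fun i j =>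
    if i = j then
      (((D.natAbs.primeFactors.filter fun r : ℕ => r ≠ (i : ℕ) ∧
        ¬ IsSquare (r : ZMod (i : ℕ))).card : ZMod 2) + if 8 ∣ points (i : ℕ) then 0 else 1)
    else if IsSquare (((j : ℕ)) : ZMod (i : ℕ)) then 0 else 1

/-- the primes which divide an element of `𝒟` -/
def primesOf (𝒟 : Finset ℤ) : Finset ℕ := 𝒟.biUnion fun D => D.natAbs.primeFactors

/-- a table of symbols: for each `i` the symbols of `p_i` with the primes in `R`, one more symbol of
`p_i`, and the symbols of the `p_i` with each other (symmetric, zero on the diagonal) -/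
abbrev Table (R : Finset ℕ) (k : ℕ) : Type := (Fin k → (R → ZMod 2) × ZMod 2) ×
  {a : Fin k → Fin k → ZMod 2 // (∀ i j, a i j = a j i) ∧ ∀ i, a i i = 0}

open Classical in
/-- the symbol of `p_i` with the prime `r` -/
noncomputable def symb {R : Finset ℕ} {k : ℕ} (x : Table R k) (i : Fin k) (r : ℕ) : ZMod 2 :=
  if h : r ∈ R then (x.1 i).1 ⟨r, h⟩ else 0

/-- the matrix of `D ∏_{i ∈ U} p_i` when the `p_i` have the table `x` -/
noncomputable def matU (D : ℤ) {R : Finset ℕ} {k : ℕ} (x : Table R k) (U : Finset (Fin k)) :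
    Matrix (splitPrimes D ⊕ U) (splitPrimes D ⊕ U) (ZMod 2) :=
  Matrix.fromBlocks
    (mat D + Matrix.diagonal fun r : splitPrimes D => ∑ i ∈ U, symb x i r)
    (Matrix.of fun r i => symb x i r) (Matrix.of fun i r => symb x i r)
    (Matrix.of fun i j => if i = j then
      ∑ r ∈ D.natAbs.primeFactors, symb x i r + ∑ l ∈ U.erase i, x.2.1 i l + (x.1 i).2
      else x.2.1 i j)

/-- `γ_k(𝒟)`: the proportion of the tables for which the matrices of all `D ∏_{i ∈ U} p_i`, `D ∈ 𝒟`,
are nonsingular -/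
noncomputable def γ (𝒟 : Finset ℤ) (k : ℕ) : ℝ :=
  (Nat.card {x : Table (primesOf 𝒟) k // ∀ D ∈ 𝒟, ∀ U : Finset (Fin k), (matU D x U).det ≠ 0} : ℝ) /
    (Nat.card (Table (primesOf 𝒟) k) : ℝ)

/-- `D ∏_{i ∈ U} p_i` -/
def twist {ι : Type} (D : ℤ) (p : ι → ℕ) (U : Finset ι) : ℤ := D * ∏ i ∈ U, (p i : ℤ)

/-- the `p_i` are different split primes not dividing the elements of `𝒟`, and for all `D ∈ 𝒟` and all
products `d` of different `p_i` the group `E_{Dd}(ℚ)` is finite and `Ш(E_{Dd})[2] = 0` -/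
def AllGood (𝒟 : Finset ℤ) {k : ℕ} (p : Fin k → ℕ) : Prop :=
  Function.Injective p ∧ (∀ i, Split (p i)) ∧ (∀ D ∈ 𝒟, ∀ i, ¬ (p i : ℤ) ∣ D) ∧
    ∀ D ∈ 𝒟, ∀ U : Finset (Fin k), RankZeroShaTwo (twist D p U)

open Classical in
/-- the tuples of split primes up to `X` -/
noncomputable def tuples (k X : ℕ) : Finset (Fin k → ℕ) :=
  Fintype.piFinset fun _ : Fin k => (range (X + 1)).filter fun p => Split p

open Classical in
/-- the indices `i` for which all the other `p_j` are squares modulo `p_i` -/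
noncomputable def free {k : ℕ} (p : Fin k → ℕ) : Finset (Fin k) :=
  univ.filter fun i => ∀ j, j ≠ i → IsSquare (p j : ZMod (p i))

theorem rank_iff {D : ℤ} (h : Y687.MQ.AdmD D) : RankZeroShaTwo D ↔ (Y687.MQ.matD D).det ≠ 0 := by
  obtain ⟨hP, hT, -, he⟩ := Y687.MQ.of_admD h
  have h1 := Z704.equivS Z702.f_COC Z702.f_LOT Z702.f_COB Z702.f_TOR Z702.f_LQ Z702.f_LG
    Z702.f_LP Z702.f_LIN Z702.f_TRN Z705.f_SELA Z705.f_SELB (Z705.cnd hP hT)
  have he' : ((Z700.pr (Y687.MQ.SP D) : ℕ) : ℤ) * Y687.DD (Y687.MQ.IP D) = D := he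
  rw [he'] at h1
  have hm : Y687.DD (Y687.MQ.IP D) = Z700.pr (Y687.MQ.IP D) ∨
      Y687.DD (Y687.MQ.IP D) = -(Z700.pr (Y687.MQ.IP D) : ℤ) := by
    refine Int.natAbs_eq_natAbs_iff.1 ?_
    rw [Y687.DD_natAbs, Int.natAbs_natCast]
    rfl
  rw [Y687.MQ.matD_eq, Y687.MQ.matT_iff hP hT, ← Y687.MQ.det_ind hP hT hm, h1]
  unfold RankZeroShaTwo
  refine and_congr Iff.rfl (forall_congr' fun x => ?_)
  rw [two_nsmul]
  rfl

theorem bsd_of {D : ℤ} (hD : D ≠ 0) (h : Y687.WB D) : BSDRankZero (A D) (B D) := by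
  obtain ⟨⟨f, hf, hfp, hf1⟩, hfin⟩ := h
  obtain ⟨F, h1, h2, h3, h4⟩ := Y687.rankBSD hf hfp hf1 hfin
  refine ⟨?_, F, h1, h2, ?_, h4⟩
  · have e : 4 * A D ^ 3 + 27 * B D ^ 2 = (4 * 5805 ^ 3 + 27 * 285714 ^ 2) * D ^ 6 := by
      unfold A B
      ring
    rw [e]
    exact mul_ne_zero (by norm_num) (pow_ne_zero 6 hD)
  · unfold A B
    rw [h3, h4]
    rfl

theorem gd_iff {D : ℤ} : (Family D ∧ RankZeroShaTwo D) ↔ Q155.KT.Gd D :=
  and_congr_right fun h => rank_iff h

theorem bsd_gd {D : ℤ} (h : Q155.KT.Gd D) : BSDRankZero (A D) (B D) :=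
  bsd_of h.1.1.ne_zero (Y687.MQ.WB_D h.1 h.2)

theorem xp1_iff {p : ℕ} (hp : Split p) : Q283.TW.xp1 p = 1 ↔ ¬ 8 ∣ points p := by
  have h1 : (8 ∣ points p) ↔ 8 ∣ Y687.NN 1 p := Q283.TW.points_iff hp
  rw [h1, Q283.TW.xp1_eq hp]
  by_cases h : 8 ∣ Y687.NN 1 p
  · rw [if_pos h]
    exact ⟨fun h' => absurd h'.symm one_ne_zero, fun h' => absurd h h'⟩
  · rw [if_neg h]
    exact ⟨fun _ => h, fun _ => rfl⟩

open Classical in
theorem mat_eq {D : ℤ} (hD : Family D) : mat D = Y687.MQ.matD D := by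
  obtain ⟨hP, -, -, -⟩ := Y687.MQ.of_admD (D := D) hD
  ext i j
  have h1 : (8 ∣ points (i : ℕ)) ↔ 8 ∣ Y687.NN 1 (i : ℕ) :=
    Q283.TW.points_iff (hP i i.2)
  show (if i = j then
      (((D.natAbs.primeFactors.filter fun r : ℕ => r ≠ (i : ℕ) ∧
        ¬ IsSquare (r : ZMod (i : ℕ))).card : ZMod 2) + if 8 ∣ points (i : ℕ) then 0 else 1)
    else if IsSquare (((j : ℕ)) : ZMod (i : ℕ)) then 0 else 1) =
    (if i = j then
      (((D.natAbs.primeFactors.filter fun r : ℕ => r ≠ (i : ℕ) ∧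
        ¬ IsSquare (r : ZMod (i : ℕ))).card : ZMod 2) + if 8 ∣ Y687.NN 1 (i : ℕ) then 0 else 1)
    else if IsSquare (((j : ℕ)) : ZMod (i : ℕ)) then 0 else 1)
  by_cases h8 : 8 ∣ points (i : ℕ)
  · rw [if_pos h8, if_pos (h1.1 h8)]
  · rw [if_neg h8, if_neg (fun h => h8 (h1.2 h))]

open Classical in
theorem matU_eq {D : ℤ} (hD : Family D) {R : Finset ℕ} {k : ℕ} (x : Table R k)
    (U : Finset (Fin k)) : matU D x U =
      Q155.KT.big D U (fun i => Q155.KT.val (x.1 i).1) (fun i => (x.1 i).2) x.2.1 := by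
  unfold matU Q155.KT.big
  rw [mat_eq hD]
  rfl

theorem γ_eq {𝒟 : Finset ℤ} (h : ∀ D ∈ 𝒟, Family D) (k : ℕ) :
    γ 𝒟 k = (Nat.card {x : Q155.KT.Dta (Q155.KT.prm 𝒟) k // Q155.KT.GoodD 𝒟 x} : ℝ) /
      (Nat.card (Q155.KT.Dta (Q155.KT.prm 𝒟) k) : ℝ) := by
  unfold γ
  congr 2
  refine Nat.card_congr (Equiv.subtypeEquivRight fun x => ?_)
  refine forall_congr' fun D => forall_congr' fun hD => forall_congr' fun U => ?_
  rw [matU_eq (h D hD)]
  exact Iff.rfl

theorem not_dvd_iff {D : ℤ} (hD : D ≠ 0) {p : ℕ} (hp : p.Prime) :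
    (¬ (p : ℤ) ∣ D) ↔ p ∉ D.natAbs.primeFactors := by
  rw [Nat.mem_primeFactors, Int.natCast_dvd]
  constructor
  · rintro h ⟨-, h2, -⟩
    exact h h2
  · intro h h2
    exact h ⟨hp, h2, Int.natAbs_ne_zero.2 hD⟩

theorem allGood_iff {𝒟 : Finset ℤ} (h : ∀ D ∈ 𝒟, Family D) {k : ℕ} {p : Fin k → ℕ}
    (hp : ∀ i, Split (p i)) : AllGood 𝒟 p ↔ Function.Injective p ∧
      (∀ i, p i ∉ Q155.KT.prm 𝒟) ∧ ∀ D ∈ 𝒟, ∀ U : Finset (Fin k),
        (Y687.MQ.matD (D * ∏ j ∈ U, ((p j : ℕ) : ℤ))).det ≠ 0 := by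
  have hpr : (∀ D ∈ 𝒟, ∀ i, ¬ (p i : ℤ) ∣ D) ↔ ∀ i, p i ∉ Q155.KT.prm 𝒟 := by
    constructor
    · intro h1 i hi
      obtain ⟨D, hD, hi'⟩ := Finset.mem_biUnion.1 hi
      exact (not_dvd_iff (h D hD).1.ne_zero (hp i).1).1 (h1 D hD i) hi'
    · intro h1 D hD i
      refine (not_dvd_iff (h D hD).1.ne_zero (hp i).1).2 fun hi => ?_
      exact h1 i (Finset.mem_biUnion.2 ⟨D, hD, hi⟩)
  unfold AllGood
  rw [hpr]
  refine and_congr_right fun hinj => ?_
  constructor
  · rintro ⟨-, h2, h3⟩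
    refine ⟨h2, fun D hD U => ?_⟩
    have hpD : ∀ i, p i ∉ D.natAbs.primeFactors := fun i hi =>
      h2 i (Finset.mem_biUnion.2 ⟨D, hD, hi⟩)
    exact (rank_iff (Q155.KT.adm_prod (h D hD) hp hinj hpD U).1).1 (h3 D hD U)
  · rintro ⟨h2, h3⟩
    refine ⟨hp, h2, fun D hD U => ?_⟩
    have hpD : ∀ i, p i ∉ D.natAbs.primeFactors := fun i hi =>
      h2 i (Finset.mem_biUnion.2 ⟨D, hD, hi⟩)
    exact (rank_iff (Q155.KT.adm_prod (h D hD) hp hinj hpD U).1).2 (h3 D hD U)

theorem gd_of_allGood {𝒟 : Finset ℤ} (h : ∀ D ∈ 𝒟, Family D) {k : ℕ} {p : Fin k → ℕ}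
    (hA : AllGood 𝒟 p) {D : ℤ} (hD : D ∈ 𝒟) (U : Finset (Fin k)) : Q155.KT.Gd (twist D p U) := by
  have hp := hA.2.1
  obtain ⟨hinj, h2, h3⟩ := (allGood_iff h hp).1 hA
  have hpD : ∀ i, p i ∉ D.natAbs.primeFactors := fun i hi =>
    h2 i (Finset.mem_biUnion.2 ⟨D, hD, hi⟩)
  exact ⟨(Q155.KT.adm_prod (h D hD) hp hinj hpD U).1, h3 D hD U⟩

theorem fam_one : ∀ D ∈ ({1} : Finset ℤ), Family D := by
  intro D hD
  rw [Finset.mem_singleton] at hD
  subst hD
  exact Q155.KT.adm_one

theorem nrp_iff {p q : ℕ} : Q283.TW.nrp p q ≠ 0 ↔ ¬ IsSquare (q : ZMod p) := by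
  unfold Q283.TW.nrp
  by_cases h : IsSquare (q : ZMod p)
  · rw [if_pos h]
    exact ⟨fun h' => absurd rfl h', fun h' => absurd h h'⟩
  · rw [if_neg h]
    exact ⟨fun _ => h, fun _ => one_ne_zero⟩

theorem allGood_one {k : ℕ} {p : Fin k → ℕ} (hp : ∀ i, Split (p i)) :
    AllGood {1} p ↔ Function.Injective p ∧ Q155.KT.AG p := by
  rw [allGood_iff fam_one hp]
  refine and_congr_right fun _ => ?_
  unfold Q155.KT.AG
  constructor
  · rintro ⟨-, h⟩ U
    exact h 1 (Finset.mem_singleton_self 1) U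
  · intro h
    refine ⟨fun i hi => ?_, fun D hD U => ?_⟩
    · obtain ⟨D, hD, hi'⟩ := Finset.mem_biUnion.1 hi
      rw [Finset.mem_singleton] at hD
      subst hD
      simp at hi'
    · rw [Finset.mem_singleton] at hD
      subst hD
      exact h U

/-- **Exact proportions, trees and matchings.** -/
theorem result :
    (∀ 𝒟 : Finset ℤ, (∀ D ∈ 𝒟, Family D ∧ RankZeroShaTwo D) →
      (∀ k : ℕ, 0 < γ 𝒟 k ∧ Filter.Tendsto (fun X : ℕ => open Classical in
        (((tuples k X).filter fun p => AllGood 𝒟 p).card : ℝ) / ((tuples k X).card : ℝ))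
        Filter.atTop (nhds (γ 𝒟 k))) ∧
      (∀ (k : ℕ) (p : Fin k → ℕ), AllGood 𝒟 p → ∀ D ∈ 𝒟, ∀ U : Finset (Fin k),
        Family (twist D p U) ∧ BSDRankZero (A (twist D p U)) (B (twist D p U))) ∧
      ∃ p : ℕ → ℕ, StrictMono p ∧ (∀ n, Split (p n)) ∧ ∀ D ∈ 𝒟, ∀ U : Finset ℕ,
        Family (twist D p U) ∧ RankZeroShaTwo (twist D p U) ∧
          BSDRankZero (A (twist D p U)) (B (twist D p U))) ∧
    (∀ (k : ℕ) (p : Fin k → ℕ), (∀ i, Split (p i)) →
      (AllGood {1} p ↔ Function.Injective p ∧ (∀ i, ¬ 8 ∣ points (p i)) ∧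
        ∀ i j l, ¬ IsSquare (p j : ZMod (p i)) → ¬ IsSquare (p l : ZMod (p i)) → j = l)) ∧
    (∀ k : ℕ, γ {1} k =
      (Nat.card {σ : Equiv.Perm (Fin k) // σ * σ = 1} : ℝ) / 2 ^ (k * (k + 1) / 2)) ∧
    (∀ (k : ℕ) (p : Fin k → ℕ), AllGood {1} p →
      Filter.Tendsto (fun X : ℕ => open Classical in
        (((range (X + 1)).filter fun q => Split q ∧
          AllGood {1} (Fin.snoc p q : Fin (k + 1) → ℕ)).card : ℝ) /
        (((range (X + 1)).filter fun q => Split q).card : ℝ)) Filter.atTop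
        (nhds (((free p).card + 1 : ℝ) / 2 ^ (k + 1)))) ∧
    RankZeroShaTwo 1 := by
  classical
  have hone : RankZeroShaTwo 1 := by
    have h := (Q155.KT.ag_iff (k := 0) (p := fun i => i.elim0) (fun i => i.elim0)
      (fun i => i.elim0)).2 ⟨fun i => i.elim0, fun i => i.elim0⟩ ∅
    rw [Finset.prod_empty, mul_one] at h
    exact (rank_iff Q155.KT.adm_one).2 h
  refine ⟨?_, ?_, ?_, ?_, hone⟩
  · intro 𝒟 h𝒟
    have hF : ∀ D ∈ 𝒟, Family D := fun D hD => (h𝒟 D hD).1
    have hG : ∀ D ∈ 𝒟, Q155.KT.Gd D := fun D hD => gd_iff.1 (h𝒟 D hD)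
    refine ⟨fun k => ⟨?_, ?_⟩, ?_, ?_⟩
    · rw [γ_eq hF]
      have h1 := Q155.KT.good_pos 𝒟 (Q155.KT.prm 𝒟) k fun D hD => (hG D hD).2
      have h2 : 0 < Nat.card (Q155.KT.Dta (Q155.KT.prm 𝒟) k) := by
        rw [Q155.KT.card_dta]
        positivity
      positivity
    · rw [γ_eq hF]
      have h := Q155.KT.main 𝒟 hF k (fun p => AllGood 𝒟 p) (fun p hp => allGood_iff hF hp)
      refine h.congr fun X => ?_
      unfold Q155.KT.tup Q155.KT.spl tuples
      congr
    · intro k p hp D hD U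
      have h1 := gd_of_allGood hF hp hD U
      exact ⟨h1.1, bsd_gd h1⟩
    · obtain ⟨p, hp1, hp2, hp3⟩ := Q155.KT.exists_seq 𝒟 hG 0
      refine ⟨p, hp1, fun n => (hp2 n).2, fun D hD U => ?_⟩
      have h1 := hp3 D hD U
      exact ⟨h1.1, (rank_iff h1.1).2 h1.2, bsd_gd h1⟩
  · intro k p hp
    rw [allGood_one hp]
    refine and_congr_right fun hinj => ?_
    rw [Q155.KT.ag_iff hp hinj]
    refine and_congr (forall_congr' fun i => xp1_iff (hp i)) ?_
    unfold Q155.KT.Mt
    simp only [nrp_iff]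
  · intro k
    rw [γ_eq fam_one]
    refine Q155.KT.card_one k _ ?_
    unfold Q155.KT.prm
    rw [Finset.singleton_biUnion]
    simp
  · intro k p hp
    have hs := hp.2.1
    obtain ⟨hinj, hAG⟩ := (allGood_one hs).1 hp
    have h := Q155.KT.branch p hs hinj hAG (fun q => AllGood {1} (Fin.snoc p q : Fin (k + 1) → ℕ)) (by
      intro q hq hne
      have hp' : ∀ i, Split ((Fin.snoc p q : Fin (k + 1) → ℕ) i) := by
        intro i
        refine Fin.lastCases ?_ (fun i => ?_) i
        · rw [Fin.snoc_last]; exact hq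
        · rw [Fin.snoc_castSucc]; exact hs i
      rw [allGood_one hp']
      refine ⟨fun h => h.2, fun h => ⟨?_, h⟩⟩
      intro a b
      refine Fin.lastCases ?_ (fun a => ?_) a
      · refine Fin.lastCases ?_ (fun b => ?_) b
        · intro _; rfl
        · rw [Fin.snoc_last, Fin.snoc_castSucc]
          intro h'
          exact absurd h'.symm (hne b)
      · refine Fin.lastCases ?_ (fun b => ?_) b
        · rw [Fin.snoc_last, Fin.snoc_castSucc]
          intro h'
          exact absurd h' (hne a)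
        · rw [Fin.snoc_castSucc, Fin.snoc_castSucc]
          intro h'
          rw [hinj h'])
    have hfr : Q155.KT.Fr p = free p := by
      ext i
      rw [Q155.KT.mem_Fr]
      unfold free
      rw [Finset.mem_filter]
      constructor
      · intro h1
        refine ⟨Finset.mem_univ _, fun j _ => ?_⟩
        by_contra h2
        exact nrp_iff.2 h2 (h1 j)
      · rintro ⟨-, h1⟩ j
        by_cases hj : j = i
        · rw [hj, Q155.KT.nrp_self]
        · by_contra h2
          exact nrp_iff.1 h2 (h1 j hj)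
    rw [hfr] at h
    refine h.congr fun X => ?_
    congr

end Pool.Agent.Results.MP_696deb_nt.TreesOfPrimeTwists
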